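import Mathlib
import Pool.Agent.H373R2.T7.Sys8

set_option autoImplicit false

/-! Systems `F_i + a_i` with positive signs: all initial segments simultaneously. -/

namespace Pool.Agent.N791.CT
open Finset Polynomial
open Pool.Agent.H373R2.T7

variable {k : ℕ}

/-- the signs -/
def sp : Fin k → ℤ := fun _ => 1

lemma sp_pm : ∀ i : Fin k, sp i = 1 ∨ sp i = -1 := fun _ => Or.inl rfl

lemma vl_sp (F : Fin k → ℤ[X]) (a : Fin k → ℕ) (i : Fin k) (n : ℕ) :
    vl F sp a i n = (F i).eval (n : ℤ) + a i := by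
  unfold vl sp
  ring

/-- the values are positive and increasing from some point on -/
lemma pos_mono (F : Fin k → ℤ[X]) (hd : ∀ i, 1 ≤ (F i).natDegree) (hl : ∀ i, 0 < (F i).leadingCoeff) :
    ∃ n0 : ℕ, 2 ≤ n0 ∧ ∀ i, (∀ n : ℕ, n0 ≤ n → 1 ≤ (F i).eval (n : ℤ)) ∧
      ∀ n m : ℕ, n0 ≤ n → n ≤ m → (F i).eval (n : ℤ) ≤ (F i).eval (m : ℤ) := by
  classical
  have hd1 : ∀ i, 1 ≤ (F i - 1).natDegree := by
    intro i
    have h1 : (F i - 1).natDegree = (F i).natDegree := by
      have := natDegree_sub_C (p := F i) (a := (1 : ℤ))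
      simpa using this
    rw [h1]; exact hd i
  have hl1 : ∀ i, 0 < (F i - 1).leadingCoeff := by
    intro i
    have h1 : (F i - 1).leadingCoeff = (F i).leadingCoeff := by
      have h2 : degree (1 : ℤ[X]) < degree (F i) := by
        rw [degree_one]
        exact natDegree_pos_iff_degree_pos.1 (hd i)
      exact leadingCoeff_sub_of_degree_lt h2
    rw [h1]; exact hl i
  choose n0 h0 h1 using fun i => ev_mono (F i - 1) (hd1 i) (hl1 i)
  refine ⟨univ.sup n0 + 2, by omega, fun i => ⟨fun n hn => ?_, fun n m hn hnm => ?_⟩⟩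
  · have hni : n0 i ≤ n := by
      have := le_sup (f := n0) (mem_univ i)
      omega
    have := h0 i n hni
    rw [eval_sub, eval_one] at this
    linarith
  · have hni : n0 i ≤ n := by
      have := le_sup (f := n0) (mem_univ i)
      omega
    have := h1 i n m hni hnm
    rw [eval_sub, eval_one, eval_sub, eval_one] at this
    linarith

lemma posCount_sp (F : Fin k → ℤ[X]) (a : Fin k → ℕ) (n0 : ℕ)
    (h : ∀ i, ∀ n : ℕ, n0 ≤ n → 1 ≤ (F i).eval (n : ℤ)) (y : ℕ) :
    |(posCount F sp a y : ℝ) - y| ≤ n0 := by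
  classical
  have h1 : posCount F sp a y ≤ y := by
    unfold posCount
    exact (card_filter_le _ _).trans (by rw [Nat.card_Icc]; omega)
  have h2 : y ≤ posCount F sp a y + n0 := by
    unfold posCount
    calc y = (Icc 1 y).card := by rw [Nat.card_Icc]; omega
      _ ≤ ((Icc 1 y).filter (fun n => ∀ i, 1 ≤ vl F sp a i n) ∪ range n0).card := by
          apply card_le_card
          intro n hn
          rw [mem_union, mem_filter, mem_range]
          rcases Nat.lt_or_ge n n0 with h3 | h3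
          · exact Or.inr h3
          · left
            refine ⟨hn, fun i => ?_⟩
            rw [vl_sp]
            have := h i n h3
            omega
      _ ≤ _ := (card_union_le _ _).trans (by rw [card_range])
  have h1' : (posCount F sp a y : ℝ) ≤ y := by exact_mod_cast h1
  have h2' : (y : ℝ) ≤ posCount F sp a y + n0 := by exact_mod_cast h2
  have : (0 : ℝ) ≤ n0 := Nat.cast_nonneg _
  rw [abs_le]
  constructor <;> linarith

lemma lamP_nonneg (v : ℤ) : 0 ≤ lamP v := by
  unfold lamP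
  split_ifs with h
  · exact Real.log_natCast_nonneg _
  · exact le_rfl

/-- the expected density -/
noncomputable def den (F : Fin k → ℤ[X]) (dn : (ℕ → ℕ → Prop) → ℕ → ℝ) (z : ℕ) (a : Fin k → ℕ) : ℝ :=
  ((Vz z)⁻¹) ^ k * dn (sysQ F sp a) z

set_option maxHeartbeats 2000000 in
theorem seg (F : Fin k → ℤ[X]) (hd : ∀ i, 1 ≤ (F i).natDegree) (hl : ∀ i, 0 < (F i).leadingCoeff)
    (w : ℕ → ℝ) (dn : (ℕ → ℕ → Prop) → ℕ → ℝ) (hw : WD w dn (sysC F)) (B : ℕ) (hB : 1 ≤ B) (U : ℕ) :
    ∃ B0 : ℕ, ∀ E : ℕ, ∃ N0 : ℕ, ∀ x : ℕ, N0 ≤ x → ∀ A : Fin k → ℕ,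
      (∀ i, A i ≤ B * x ^ (F i).natDegree ∧ x ^ (F i).natDegree ≤ B * A i) →
      ∀ z : ℕ, Real.log x ^ B0 ≤ z → (z : ℝ) ≤ Real.log x ^ E →
      ∃ S : Finset (Fin k → ℕ), (S.card : ℝ) ≤ (∏ i, (A i : ℝ)) / Real.log x ^ U ∧
        ∀ a ∈ Fintype.piFinset (fun i => Icc 1 (A i)), a ∉ S → ∀ y : ℕ, y ≤ x →
        |∑ n ∈ Icc 1 y, w n * ∏ i, lamP (vl F sp a i n) - den F dn z a * y| ≤ x / Real.log x ^ U := by
  classical
  obtain ⟨n0, hn0, hpos⟩ := pos_mono F hd hl
  set W : ℕ := U + k + 2 with hW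
  set U1 : ℕ := 2 * U + W + 3 with hU1
  obtain ⟨B0, hB0⟩ := sys_diffP F hd hl sp sp_pm B hB U1
  refine ⟨B0, fun E => ?_⟩
  obtain ⟨N1, h1⟩ := hB0 E
  obtain ⟨N2, h2⟩ := sys_model F hd hl sp sp_pm w dn hw (E + 1) (U + 3)
  obtain ⟨N3, h3⟩ := ev_L' (2 ^ (U + 3) + 2 * 2 ^ E + 9)
  obtain ⟨N4, h4⟩ := ev_log' (k + U + 3 + W) (n0 + 1)
  obtain ⟨N5, h5⟩ := Vz_inv_small E
  refine ⟨N1 + N2 ^ 2 + N3 + N4 + N5 + 3, fun x hx A hA z hz1 hz2 => ?_⟩
  have k1 := h1 x (by omega) A hA z hz1 hz2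
  have k3 := h3 x (by omega)
  have k4 := h4 x (by omega)
  have hx3 : 3 ≤ x := by omega
  have hxr : (3 : ℝ) ≤ x := by exact_mod_cast hx3
  have hx0 : (0 : ℝ) < x := by linarith
  obtain ⟨L, hL⟩ : ∃ L, L = Real.log (x : ℝ) := ⟨_, rfl⟩
  rw [← hL] at k1 k3 k4 hz1 hz2 ⊢
  have q1 : (0 : ℝ) < 2 ^ (U + 3) := by positivity
  have q2 : (0 : ℝ) < 2 * 2 ^ E := by positivity
  have hL9 : 9 ≤ L := by linarith
  have hL0 : 0 < L := by linarith
  have hL1 : 1 ≤ L := by linarith
  have hz : 1 ≤ z := by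
    have : (1 : ℝ) ≤ z := (one_le_pow₀ hL1).trans hz1
    exact_mod_cast this
  have k5 := h5 x (by omega) z hz (by rw [← hL]; exact hz2)
  rw [← hL] at k5
  obtain ⟨V, hV⟩ : ∃ V, V = (Vz z)⁻¹ := ⟨_, rfl⟩
  have hV0 : 0 ≤ V := by rw [hV]; exact (inv_pos.2 (Vz_pos z)).le
  rw [← hV] at k5
  have hss : √(x : ℝ) * √(x : ℝ) = x := Real.mul_self_sqrt hx0.le
  have hs0 : 0 < √(x : ℝ) := Real.sqrt_pos.2 hx0
  have hs1 : 1 ≤ √(x : ℝ) := by
    rw [show (1 : ℝ) = √1 by simp]
    exact Real.sqrt_le_sqrt (by linarith)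
  -- the density
  have hden0 : ∀ a, 0 ≤ den F dn z a := by
    intro a
    unfold den
    rw [← hV]
    exact mul_nonneg (pow_nonneg hV0 _) (hw.d0 _ _)
  have hden1 : ∀ a, den F dn z a ≤ L ^ k := by
    intro a
    unfold den
    rw [← hV]
    calc V ^ k * dn (sysQ F sp a) z ≤ L ^ k * 1 :=
          mul_le_mul (pow_le_pow_left₀ hV0 k5 _) (hw.d1 _ _) (hw.d0 _ _) (by positivity)
      _ = L ^ k := mul_one _
  have hwL : ∀ n ∈ Icc 1 x, |w n| ≤ L := by
    intro n hn
    rw [mem_Icc] at hn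
    rw [abs_of_nonneg (hw.nn n), hL]
    refine (hw.le n hn.1).trans (max_le (by rw [← hL]; exact hL1) ?_)
    apply Real.log_le_log (by exact_mod_cast hn.1)
    exact_mod_cast hn.2
  -- the exceptional set for one segment
  obtain ⟨box, hbox⟩ : ∃ box, box = Fintype.piFinset (fun i => Icc 1 (A i)) := ⟨_, rfl⟩
  rw [← hbox] at k1 ⊢
  set fa : ℕ → (Fin k → ℕ) → ℝ := fun g a => |∑ n ∈ Icc 1 x, (if n ≤ g then w n else 0) *
        (∏ i, lamP (vl F sp a i n) - ∏ i, lamzI z (vl F sp a i n))| with hfa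
  have hprod : 0 ≤ ∏ i, (A i : ℝ) := prod_nonneg fun _ _ => Nat.cast_nonneg _
  set T : ℝ := x / L ^ (U + 2) with hT
  have hT0 : 0 < T := by positivity
  set Sg : ℕ → Finset (Fin k → ℕ) := fun g => box.filter (fun a => T < fa g a) with hSg
  have hSgc : ∀ g, ((Sg g).card : ℝ) ≤ (∏ i, (A i : ℝ)) / L ^ (U + W + 1) := by
    intro g
    apply markov _ (fa g) (fun _ _ => abs_nonneg _) T _ hT0
    have k6 := k1 (fun n => if n ≤ g then w n else 0) (by
      intro n hn
      split_ifs
      · exact hwL n hn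
      · rw [abs_zero]; exact hL0.le)
    refine k6.trans (le_of_eq ?_)
    rw [hT]
    have e : L ^ U1 = L ^ (U + 2) * L ^ (U + W + 1) := by
      rw [← pow_add]
      congr 1
      omega
    rw [e]
    field_simp
  -- one segment
  have hone : ∀ a ∈ box, ∀ g : ℕ, g ≤ x → √(x : ℝ) ≤ g → a ∉ Sg g →
      |∑ n ∈ Icc 1 g, w n * ∏ i, lamP (vl F sp a i n) - den F dn z a * g| ≤ 3 * T := by
    intro a ha g hgx hg haS
    have ha1 : ∀ i, 1 ≤ a i := by
      intro i
      rw [hbox] at ha
      exact (mem_Icc.1 (Fintype.mem_piFinset.1 ha i)).1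
    have s1 : |∑ n ∈ Icc 1 x, (if n ≤ g then w n else 0) *
        (∏ i, lamP (vl F sp a i n) - ∏ i, lamzI z (vl F sp a i n))| ≤ T := by
      by_contra hcon
      push Not at hcon
      exact haS (mem_filter.2 ⟨ha, hcon⟩)
    have s2 : ∑ n ∈ Icc 1 x, (if n ≤ g then w n else 0) *
        (∏ i, lamP (vl F sp a i n) - ∏ i, lamzI z (vl F sp a i n)) =
        ∑ n ∈ Icc 1 g, w n * ∏ i, lamP (vl F sp a i n) - ∑ n ∈ Icc 1 g, w n * ∏ i, lamzI z (vl F sp a i n) := by
      rw [← sum_sub_distrib]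
      have e : Icc 1 g = (Icc 1 x).filter (fun n => n ≤ g) := by
        ext n
        rw [mem_filter, mem_Icc, mem_Icc]
        omega
      rw [e, sum_filter]
      apply sum_congr rfl
      intro n _
      split_ifs
      · ring
      · ring
    rw [s2] at s1
    have hg0 : (0 : ℝ) < g := hs0.trans_le hg
    have hlg : L / 2 ≤ Real.log g := by
      have h6 := Real.log_le_log hs0 hg
      rw [Real.log_sqrt hx0.le, ← hL] at h6
      exact h6
    have hgN : N2 ≤ g := by
      have h6 : (N2 : ℝ) ^ 2 ≤ x := by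
        have : N2 ^ 2 ≤ x := by omega
        exact_mod_cast this
      have h7 : (N2 : ℝ) ≤ √x := Real.le_sqrt_of_sq_le h6
      exact_mod_cast (h7.trans hg)
    have hzg : (z : ℝ) ≤ Real.log g ^ (E + 1) := by
      refine hz2.trans ?_
      calc L ^ E ≤ (2 * Real.log g) ^ E := pow_le_pow_left₀ hL0.le (by linarith) _
        _ = 2 ^ E * Real.log g ^ E := mul_pow _ _ _
        _ ≤ Real.log g * Real.log g ^ E := by
            apply mul_le_mul_of_nonneg_right _ (pow_nonneg (by linarith) _)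
            linarith
        _ = _ := by ring
    have s3 := h2 g hgN a ha1 z hz hzg
    have s4 : (g : ℝ) / Real.log g ^ (U + 3) ≤ T := by
      have h7 : (L / 2) ^ (U + 3) ≤ Real.log g ^ (U + 3) := pow_le_pow_left₀ (by positivity) hlg _
      calc (g : ℝ) / Real.log g ^ (U + 3) ≤ x / (L / 2) ^ (U + 3) := by
            apply div_le_div₀ hx0.le (by exact_mod_cast hgx) (by positivity) h7
        _ = (2 ^ (U + 3) / L) * (x / L ^ (U + 2)) := by
            rw [div_pow, pow_succ L (U + 2)]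
            field_simp
        _ ≤ 1 * (x / L ^ (U + 2)) := by
            apply mul_le_mul_of_nonneg_right _ hT0.le
            rw [div_le_one hL0]
            linarith
        _ = T := one_mul _
    have s5 : |den F dn z a * (posCount F sp a g : ℝ) - den F dn z a * g| ≤ T := by
      rw [← mul_sub, abs_mul, abs_of_nonneg (hden0 a)]
      calc den F dn z a * |(posCount F sp a g : ℝ) - g| ≤ L ^ k * n0 :=
            mul_le_mul (hden1 a) (posCount_sp F a n0 (fun i => (hpos i).1) g) (abs_nonneg _) (by positivity)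
        _ ≤ T := by
            rw [hT, le_div_iff₀ (by positivity)]
            have h6 : L ^ (k + U + 2) ≤ L ^ (k + U + 3 + W) := pow_le_pow_right₀ hL1 (by omega)
            have hn0r : (0 : ℝ) ≤ n0 := Nat.cast_nonneg _
            calc L ^ k * n0 * L ^ (U + 2) = n0 * L ^ (k + U + 2) := by
                  rw [show k + U + 2 = k + (U + 2) by ring, pow_add]; ring
              _ ≤ (n0 + 1) * L ^ (k + U + 3 + W) := by
                  apply mul_le_mul _ h6 (by positivity) (by positivity)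
                  linarith
              _ ≤ √x := by linarith
              _ ≤ √x * √x := le_mul_of_one_le_left hs0.le hs1
              _ = x := hss
    have e : ∑ n ∈ Icc 1 g, w n * ∏ i, lamP (vl F sp a i n) - den F dn z a * g =
        (∑ n ∈ Icc 1 g, w n * ∏ i, lamP (vl F sp a i n) - ∑ n ∈ Icc 1 g, w n * ∏ i, lamzI z (vl F sp a i n)) +
        (∑ n ∈ Icc 1 g, w n * ∏ i, lamzI z (vl F sp a i n) - den F dn z a * (posCount F sp a g : ℝ)) +
        (den F dn z a * (posCount F sp a g : ℝ) - den F dn z a * g) := by ring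
    rw [e]
    refine (abs_add_le _ _).trans ?_
    have h8 := abs_add_le (∑ n ∈ Icc 1 g, w n * ∏ i, lamP (vl F sp a i n) - ∑ n ∈ Icc 1 g, w n * ∏ i, lamzI z (vl F sp a i n))
      (∑ n ∈ Icc 1 g, w n * ∏ i, lamzI z (vl F sp a i n) - den F dn z a * (posCount F sp a g : ℝ))
    have h9 : |∑ n ∈ Icc 1 g, w n * ∏ i, lamzI z (vl F sp a i n) - den F dn z a * (posCount F sp a g : ℝ)| ≤ T :=
      le_trans s3 s4
    linarith
  -- the grid
  set w0 : ℕ := ⌈(x : ℝ) / L ^ W⌉₊ with hw0
  have hLW : L ^ W ≤ √x := by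
    have h6 : L ^ W ≤ L ^ (k + U + 3 + W) := pow_le_pow_right₀ hL1 (by omega)
    have hn0r : (1 : ℝ) ≤ (n0 : ℝ) + 1 := by
      have : (0 : ℝ) ≤ n0 := Nat.cast_nonneg _
      linarith
    have h7 : (0 : ℝ) ≤ L ^ (k + U + 3 + W) := by positivity
    nlinarith
  have hxW : √(x : ℝ) ≤ x / L ^ W := by
    rw [le_div_iff₀ (by positivity)]
    calc √(x : ℝ) * L ^ W ≤ √x * √x := mul_le_mul_of_nonneg_left hLW hs0.le
      _ = x := hss
  have hw1 : (x : ℝ) / L ^ W ≤ w0 := Nat.le_ceil _
  have hw2 : (w0 : ℝ) ≤ 2 * (x / L ^ W) := by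
    have := (Nat.ceil_lt_add_one (by positivity : (0 : ℝ) ≤ (x : ℝ) / L ^ W)).le
    rw [← hw0] at this
    linarith
  have hwpos : 0 < w0 := by
    have : (0 : ℝ) < w0 := hs0.trans_le (hxW.trans hw1)
    exact_mod_cast this
  set J : ℕ := x / w0 with hJ
  have hJr : (J : ℝ) ≤ L ^ W := by
    have h6 : (J : ℝ) ≤ (x : ℝ) / w0 := Nat.cast_div_le
    refine h6.trans ?_
    rw [div_le_iff₀ (by exact_mod_cast hwpos)]
    calc (x : ℝ) = L ^ W * (x / L ^ W) := by field_simp
      _ ≤ L ^ W * w0 := mul_le_mul_of_nonneg_left hw1 (by positivity)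
  refine ⟨(range (J + 2)).biUnion (fun j => Sg (min (j * w0) x)), ?_, ?_⟩
  · have h6 : (((range (J + 2)).biUnion (fun j => Sg (min (j * w0) x))).card : ℝ) ≤
        ∑ j ∈ range (J + 2), ((Sg (min (j * w0) x)).card : ℝ) := by
      exact_mod_cast card_biUnion_le
    refine h6.trans ((sum_le_sum fun j _ => hSgc _).trans ?_)
    rw [sum_const, card_range, nsmul_eq_mul]
    push_cast
    have h7 : (J : ℝ) + 2 ≤ L ^ (W + 1) := by
      have h8 : 1 ≤ L ^ W := one_le_pow₀ hL1
      rw [pow_succ]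
      nlinarith
    calc ((J : ℝ) + 2) * ((∏ i, (A i : ℝ)) / L ^ (U + W + 1)) ≤ L ^ (W + 1) * ((∏ i, (A i : ℝ)) / L ^ (U + W + 1)) :=
          mul_le_mul_of_nonneg_right h7 (by positivity)
      _ = _ := by
          have e : L ^ (U + W + 1) = L ^ (W + 1) * L ^ U := by rw [← pow_add]; congr 1; ring
          rw [e]
          field_simp
  · intro a ha haS y hy
    rw [mem_biUnion, not_exists] at haS
    have hgrid : ∀ j, 1 ≤ j → j ≤ J + 1 →
        |∑ n ∈ Icc 1 (min (j * w0) x), w n * ∏ i, lamP (vl F sp a i n) - den F dn z a * (min (j * w0) x : ℕ)| ≤ 3 * T := by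
      intro j hj1 hj2
      apply hone a ha _ (min_le_right _ _)
      · push_cast
        apply le_min
        · have h6 : (1 : ℝ) ≤ j := by exact_mod_cast hj1
          calc √(x : ℝ) ≤ w0 := hxW.trans hw1
            _ = 1 * w0 := (one_mul _).symm
            _ ≤ j * w0 := mul_le_mul_of_nonneg_right h6 (Nat.cast_nonneg _)
        · rw [Real.sqrt_le_left hx0.le]
          nlinarith
      · intro h
        exact haS j ⟨mem_range.2 (by omega), h⟩
    have hterm : ∀ n, 0 ≤ w n * ∏ i, lamP (vl F sp a i n) := fun n =>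
      mul_nonneg (hw.nn n) (prod_nonneg fun i _ => lamP_nonneg _)
    obtain ⟨j, hj⟩ : ∃ j, j = y / w0 := ⟨_, rfl⟩
    have hjJ : j ≤ J := by rw [hj, hJ]; exact Nat.div_le_div_right hy
    have hlow : j * w0 ≤ y := by rw [hj]; exact Nat.div_mul_le_self _ _
    have hup : y < (j + 1) * w0 := by
      rw [hj]
      have := Nat.lt_div_mul_add (a := y) hwpos
      rw [add_mul, one_mul]
      exact this
    have hd0 := hden0 a
    have hd1 := hden1 a
    have hdw : den F dn z a * w0 ≤ 2 * T := by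
      calc den F dn z a * w0 ≤ L ^ k * (2 * (x / L ^ W)) := mul_le_mul hd1 hw2 (Nat.cast_nonneg _) (by positivity)
        _ = 2 * T := by
            rw [hT, hW]
            have e : L ^ (U + k + 2) = L ^ k * L ^ (U + 2) := by rw [← pow_add]; congr 1; ring
            rw [e]
            field_simp
    have hTU : 5 * T ≤ x / L ^ U := by
      have e : (x : ℝ) / L ^ U = L ^ 2 * T := by
        rw [hT, pow_add]
        field_simp
      rw [e]
      apply mul_le_mul_of_nonneg_right _ hT0.le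
      nlinarith
    refine le_trans ?_ hTU
    rw [abs_le]
    constructor
    · -- lower bound
      have h6 : den F dn z a * (j * w0 : ℕ) - 3 * T ≤ ∑ n ∈ Icc 1 y, w n * ∏ i, lamP (vl F sp a i n) := by
        rcases Nat.eq_zero_or_pos j with h0 | h0
        · rw [h0]
          have : 0 ≤ ∑ n ∈ Icc 1 y, w n * ∏ i, lamP (vl F sp a i n) := sum_nonneg fun n _ => hterm n
          simp only [zero_mul, Nat.cast_zero, mul_zero]
          linarith
        · have h7 := hgrid j h0 (by omega)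
          have h8 : min (j * w0) x = j * w0 := min_eq_left (hlow.trans hy)
          rw [h8] at h7
          have h9 := (abs_le.1 h7).1
          have h10 : ∑ n ∈ Icc 1 (j * w0), w n * ∏ i, lamP (vl F sp a i n) ≤ ∑ n ∈ Icc 1 y, w n * ∏ i, lamP (vl F sp a i n) :=
            sum_le_sum_of_subset_of_nonneg (Icc_subset_Icc_right hlow) (fun n _ _ => hterm n)
          linarith
      have h7 : (y : ℝ) ≤ (j * w0 : ℕ) + w0 := by
        have : y ≤ j * w0 + w0 := by
          rw [add_mul, one_mul] at hup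
          omega
        exact_mod_cast this
      have h8 : den F dn z a * y ≤ den F dn z a * (j * w0 : ℕ) + den F dn z a * w0 := by
        rw [← mul_add]
        exact mul_le_mul_of_nonneg_left h7 hd0
      linarith
    · -- upper bound
      have h7 := hgrid (j + 1) (by omega) (by omega)
      have h9 := (abs_le.1 h7).2
      have hyu : y ≤ min ((j + 1) * w0) x := le_min hup.le hy
      have h10 : ∑ n ∈ Icc 1 y, w n * ∏ i, lamP (vl F sp a i n) ≤
          ∑ n ∈ Icc 1 (min ((j + 1) * w0) x), w n * ∏ i, lamP (vl F sp a i n) :=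
        sum_le_sum_of_subset_of_nonneg (Icc_subset_Icc_right hyu) (fun n _ _ => hterm n)
      have h11 : ((min ((j + 1) * w0) x : ℕ) : ℝ) ≤ y + w0 := by
        have : min ((j + 1) * w0) x ≤ y + w0 := by
          refine (min_le_left _ _).trans ?_
          rw [add_mul, one_mul]
          omega
        exact_mod_cast this
      have h8 : den F dn z a * ((min ((j + 1) * w0) x : ℕ) : ℝ) ≤ den F dn z a * y + den F dn z a * w0 := by
        rw [← mul_add]
        exact mul_le_mul_of_nonneg_left h11 hd0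
      linarith

end Pool.Agent.N791.CT
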