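import Mathlib
import Pool.Agent.N791.CT.A

set_option autoImplicit false

/-! Partial summation, and the weight for prime arguments. -/

namespace Pool.Agent.N791.CT
open Finset Polynomial
open Pool.Agent.H373R2.T7

/-- partial summation against a decreasing nonnegative function -/
lemma abel (c g : ℕ → ℝ) (m : ℕ) (hm1 : 1 ≤ m) (e : ℝ) (he : 0 ≤ e) (y : ℕ) (hmy : m ≤ y)
    (hg : ∀ n, m ≤ n → n < y → g (n + 1) ≤ g n) (hg0 : 0 ≤ g y)
    (hD : ∀ t, t ≤ y → |∑ n ∈ Icc 1 t, c n| ≤ e) :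
    |∑ n ∈ Icc m y, g n * c n| ≤ 2 * g m * e := by
  have hanti : ∀ t, m ≤ t → t ≤ y → g y ≤ g t ∧ g t ≤ g m := by
    intro t ht1 ht2
    constructor
    · obtain ⟨d, rfl⟩ := Nat.exists_eq_add_of_le ht2
      have : ∀ d', d' ≤ d → g (t + d') ≤ g t := by
        intro d'
        induction d' with
        | zero => intro _; exact le_rfl
        | succ d' ih =>
          intro h
          refine (hg (t + d') (by omega) (by omega)).trans (ih (by omega))
      exact this d le_rfl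
    · obtain ⟨d, rfl⟩ := Nat.exists_eq_add_of_le ht1
      have : ∀ d', d' ≤ d → g (m + d') ≤ g m := by
        intro d'
        induction d' with
        | zero => intro _; exact le_rfl
        | succ d' ih =>
          intro h
          refine (hg (m + d') (by omega) (by omega)).trans (ih (by omega))
      exact this d le_rfl
  have key : ∀ t, m ≤ t → t ≤ y → |∑ n ∈ Icc m t, g n * c n - g t * ∑ n ∈ Icc 1 t, c n| ≤ e * (g m + (g m - g t)) := by
    intro t ht
    induction t, ht using Nat.le_induction with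
    | base =>
      intro h
      have e1 : ∑ n ∈ Icc m m, g n * c n = g m * c m := by simp
      have e2 : ∑ n ∈ Icc 1 m, c n = ∑ n ∈ Icc 1 (m - 1), c n + c m := by
        obtain ⟨m', rfl⟩ : ∃ m', m = m' + 1 := ⟨m - 1, by omega⟩
        rw [Nat.add_sub_cancel, sum_Icc_succ_top (by omega)]
      rw [e1, e2]
      have e3 : g m * c m - g m * (∑ n ∈ Icc 1 (m - 1), c n + c m) = -(g m * ∑ n ∈ Icc 1 (m - 1), c n) := by ring
      rw [e3, abs_neg, abs_mul]
      have h2 := hanti m le_rfl h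
      have h1 : 0 ≤ g m := hg0.trans h2.1
      rw [abs_of_nonneg h1, sub_self, add_zero, mul_comm]
      exact mul_le_mul_of_nonneg_right (hD (m - 1) (by omega)) h1
    | succ t ht ih =>
      intro h
      have h1 := ih (by omega)
      rw [sum_Icc_succ_top (by omega), sum_Icc_succ_top (by omega)]
      have e3 : ∑ n ∈ Icc m t, g n * c n + g (t + 1) * c (t + 1) - g (t + 1) * (∑ n ∈ Icc 1 t, c n + c (t + 1)) =
        (∑ n ∈ Icc m t, g n * c n - g t * ∑ n ∈ Icc 1 t, c n) + (g t - g (t + 1)) * ∑ n ∈ Icc 1 t, c n := by ring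
      rw [e3]
      refine (abs_add_le _ _).trans ?_
      have h2 : 0 ≤ g t - g (t + 1) := by linarith [hg t ht (by omega)]
      rw [abs_mul, abs_of_nonneg h2]
      have h3 : (g t - g (t + 1)) * |∑ n ∈ Icc 1 t, c n| ≤ (g t - g (t + 1)) * e :=
        mul_le_mul_of_nonneg_left (hD t (by omega)) h2
      linarith
  have h1 := key y hmy le_rfl
  have h2 : |g y * ∑ n ∈ Icc 1 y, c n| ≤ g y * e := by
    rw [abs_mul, abs_of_nonneg hg0]
    exact mul_le_mul_of_nonneg_left (hD y le_rfl) hg0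
  have e3 : ∑ n ∈ Icc m y, g n * c n = (∑ n ∈ Icc m y, g n * c n - g y * ∑ n ∈ Icc 1 y, c n) + g y * ∑ n ∈ Icc 1 y, c n := by ring
  rw [e3]
  refine (abs_add_le _ _).trans ?_
  nlinarith

open Classical in
/-- the logarithm on the primes -/
noncomputable def wp (n : ℕ) : ℝ := if n.Prime then Real.log n else 0

lemma wp_le (n : ℕ) : wp n ≤ ArithmeticFunction.vonMangoldt n := by
  unfold wp
  split_ifs with h
  · rw [ArithmeticFunction.vonMangoldt_apply_prime h]
  · exact ArithmeticFunction.vonMangoldt_nonneg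

lemma wp_nonneg (n : ℕ) : 0 ≤ wp n := by
  unfold wp
  split_ifs with h
  · exact Real.log_natCast_nonneg _
  · exact le_rfl

lemma sum_lam_sub_wp (N : ℕ) (hN : 1 ≤ N) :
    ∑ n ∈ Icc 1 N, (ArithmeticFunction.vonMangoldt n - wp n) ≤ 2 * √(N : ℝ) * Real.log N := by
  have h := Chebyshev.psi_sub_theta_le (x := (N : ℝ)) (by exact_mod_cast hN)
  refine le_trans (le_of_eq ?_) h
  rw [sum_sub_distrib]
  congr 1
  · unfold Chebyshev.psi
    rw [Nat.floor_natCast]
    apply sum_congr _ (fun _ _ => rfl)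
    ext n
    rw [mem_Icc, mem_Ioc]
    omega
  · unfold Chebyshev.theta wp
    rw [Nat.floor_natCast, ← sum_filter]
    apply sum_congr _ (fun _ _ => rfl)
    ext n
    rw [mem_filter, mem_filter, mem_Icc, mem_Ioc]
    constructor
    · rintro ⟨h1, h2⟩
      exact ⟨by omega, h2⟩
    · rintro ⟨h1, h2⟩
      exact ⟨by omega, h2⟩

lemma wd_wp (c : ℕ) (hc : 1 ≤ c) : WD wp (fun Q z => ∏ p ∈ pz z, (1 - (rhoA Q p : ℝ) / (p - 1 : ℝ))) c := by
  classical
  have h0 := wd_lam c hc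
  refine ⟨wp_nonneg, fun n hn => (wp_le n).trans (h0.le n hn), h0.d0, h0.d1, fun E U => ?_⟩
  obtain ⟨N1, h1⟩ := h0.main E (U + 1)
  obtain ⟨N2, h2⟩ := ev_log' (U + 2) 2
  obtain ⟨N3, h3⟩ := ev_L' 2
  refine ⟨N1 + N2 + N3 + 2, fun N hN z hz hzE Q hQ => ?_⟩
  have k1 := h1 N (by omega) z hz hzE Q hQ
  have k2 := h2 N (by omega)
  have k3 := h3 N (by omega)
  have hNr : (2 : ℝ) ≤ N := by exact_mod_cast (by omega : 2 ≤ N)
  have hN0 : (0 : ℝ) < N := by linarith
  obtain ⟨L, hL⟩ : ∃ L, L = Real.log (N : ℝ) := ⟨_, rfl⟩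
  rw [← hL] at k1 k2 k3 ⊢
  have hL0 : 0 < L := by linarith
  obtain ⟨s, hs⟩ : ∃ s, s = (Icc 1 N).filter (fun n : ℕ => ∀ p ∈ pz z, ¬ Q p n) := ⟨_, rfl⟩
  have k1' : |∑ n ∈ s, ArithmeticFunction.vonMangoldt n - N * ∏ p ∈ pz z, (1 - (rhoA Q p : ℝ) / (p - 1 : ℝ))| ≤ N / L ^ (U + 1) := by
    rw [hs]; exact k1
  have goal' : |∑ n ∈ s, wp n - N * ∏ p ∈ pz z, (1 - (rhoA Q p : ℝ) / (p - 1 : ℝ))| ≤ N / L ^ U := by
    have h4 : |∑ n ∈ s, (ArithmeticFunction.vonMangoldt n - wp n)| ≤ 2 * √(N : ℝ) * L := by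
      rw [abs_of_nonneg (sum_nonneg fun n _ => by have := wp_le n; linarith), hL]
      refine le_trans ?_ (sum_lam_sub_wp N (by omega))
      apply sum_le_sum_of_subset_of_nonneg
      · rw [hs]; exact filter_subset _ _
      · intro n _ _
        have := wp_le n
        linarith
    have h5 : 2 * √(N : ℝ) * L ≤ N / L ^ (U + 1) := by
      rw [le_div_iff₀ (by positivity)]
      have hss : √(N : ℝ) * √(N : ℝ) = N := Real.mul_self_sqrt hN0.le
      calc 2 * √(N : ℝ) * L * L ^ (U + 1) = √(N : ℝ) * (2 * L ^ (U + 2)) := by rw [pow_succ L (U + 1)]; ring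
        _ ≤ √(N : ℝ) * √(N : ℝ) := mul_le_mul_of_nonneg_left k2 (Real.sqrt_nonneg _)
        _ = N := hss
    have e : ∑ n ∈ s, wp n - N * ∏ p ∈ pz z, (1 - (rhoA Q p : ℝ) / (p - 1 : ℝ)) =
        (∑ n ∈ s, ArithmeticFunction.vonMangoldt n - N * ∏ p ∈ pz z, (1 - (rhoA Q p : ℝ) / (p - 1 : ℝ))) -
        ∑ n ∈ s, (ArithmeticFunction.vonMangoldt n - wp n) := by
      rw [sum_sub_distrib]
      ring
    rw [e]
    refine (abs_sub _ _).trans ?_
    have e2 : (N : ℝ) / L ^ U = L * (N / L ^ (U + 1)) := by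
      rw [pow_succ]
      field_simp
    rw [e2]
    have h6 : 0 ≤ (N : ℝ) / L ^ (U + 1) := by positivity
    nlinarith
  rw [hs] at goal'
  exact goal'

end Pool.Agent.N791.CT
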