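import Mathlib

set_option autoImplicit false

/-! The objects of the quantitative Hypothesis H. -/

namespace Pool.Agent.N791.CT
open Finset Polynomial

open Classical in
/-- `π_H(y)`: the number of `1 ≤ n ≤ y` for which `|f(n)|` is prime for every `f ∈ H`. -/
noncomputable def primeCount (H : Finset ℤ[X]) (y : ℕ) : ℕ :=
  ((Icc 1 y).filter (fun n : ℕ => ∀ f ∈ H, (f.eval (n : ℤ)).natAbs.Prime)).card

open Classical in
/-- `ω_H(p)`: the number of `n ∈ {1, …, p}` with `∏ f(n) ≡ 0 (mod p)`. -/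
noncomputable def omega (H : Finset ℤ[X]) (p : ℕ) : ℕ :=
  ((Icc 1 p).filter (fun n : ℕ => (p : ℤ) ∣ ∏ f ∈ H, f.eval (n : ℤ))).card

/-- The part of the product `C_H` over the primes `p ≤ z`. -/
noncomputable def eulerProd (H : Finset ℤ[X]) (z : ℕ) : ℝ :=
  ∏ p ∈ (Icc 1 z).filter Nat.Prime, (1 - (omega H p : ℝ) / p) / (1 - 1 / (p : ℝ)) ^ H.card

open Classical in
/-- The sum of `1 / ∏ log |f(n)|` over the `1 ≤ n ≤ y` with `|f(n)| ≥ 2` for every `f ∈ H`. -/
noncomputable def logSum (H : Finset ℤ[X]) (y : ℕ) : ℝ :=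
  ∑ n ∈ (Icc 1 y).filter (fun n : ℕ => ∀ f ∈ H, 2 ≤ |f.eval (n : ℤ)|),
    1 / ∏ f ∈ H, Real.log |((f.eval (n : ℤ) : ℤ) : ℝ)|

open Classical in
/-- The set `H` that consists of the members of `P` and of the polynomials `F_i + a_i`. -/
noncomputable def family {k : ℕ} (P : Finset ℤ[X]) (F : Fin k → ℤ[X]) (a : Fin k → ℕ) : Finset ℤ[X] :=
  P ∪ univ.image (fun i => F i + C (a i : ℤ))

end Pool.Agent.N791.CT
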