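import Mathlib
import Pool.Agent.N791.CT.B
import Pool.Agent.N791.CT.Def

set_option autoImplicit false

/-! From the weighted to the unweighted count. -/

namespace Pool.Agent.N791.CT
open Finset Polynomial
open Pool.Agent.H373R2.T7

/-- the weighted indicator -/
noncomputable def TH (H : Finset ℤ[X]) (n : ℕ) : ℝ := ∏ f ∈ H, lamP (f.eval (n : ℤ))

/-- the density -/
noncomputable def gH (H : Finset ℤ[X]) (n : ℕ) : ℝ := 1 / ∏ f ∈ H, Real.log |((f.eval (n : ℤ) : ℤ) : ℝ)|

lemma log_abs_ge (v : ℤ) (h : 2 ≤ |v|) : 1 / 2 ≤ Real.log |(v : ℝ)| := by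
  have h1 : (2 : ℝ) ≤ |(v : ℝ)| := by exact_mod_cast h
  have h2 := Real.log_le_log (by norm_num) h1
  have h3 := Real.log_two_gt_d9
  linarith

lemma gH_nonneg (H : Finset ℤ[X]) (n : ℕ) (h : ∀ f ∈ H, 2 ≤ |f.eval (n : ℤ)|) : 0 ≤ gH H n ∧ gH H n ≤ 2 ^ H.card := by
  unfold gH
  have h1 : ∀ f ∈ H, (1 / 2 : ℝ) ≤ Real.log |((f.eval (n : ℤ) : ℤ) : ℝ)| := fun f hf => log_abs_ge _ (h f hf)
  have h2 : (1 / 2 : ℝ) ^ H.card ≤ ∏ f ∈ H, Real.log |((f.eval (n : ℤ) : ℤ) : ℝ)| := by
    rw [← prod_const]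
    exact prod_le_prod (fun _ _ => by norm_num) h1
  have h3 : (0 : ℝ) < (1 / 2 : ℝ) ^ H.card := by positivity
  constructor
  · exact div_nonneg zero_le_one (h3.le.trans h2)
  · calc 1 / ∏ f ∈ H, Real.log |((f.eval (n : ℤ) : ℤ) : ℝ)| ≤ 1 / (1 / 2 : ℝ) ^ H.card := one_div_le_one_div_of_le h3 h2
      _ = 2 ^ H.card := by rw [one_div_pow, one_div_one_div]

/-- from the weighted to the unweighted count -/
theorem unw (H : Finset ℤ[X]) (m : ℕ) (hm : 1 ≤ m) (h2 : ∀ f ∈ H, ∀ n : ℕ, m ≤ n → 2 ≤ f.eval (n : ℤ))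
    (hmono : ∀ f ∈ H, ∀ n n' : ℕ, m ≤ n → n ≤ n' → f.eval (n : ℤ) ≤ f.eval (n' : ℤ))
    (S e : ℝ) (hS : 0 ≤ S) (x : ℕ) (hD : ∀ y : ℕ, y ≤ x → |∑ n ∈ Icc 1 y, TH H n - S * y| ≤ e) :
    ∀ y : ℕ, y ≤ x → |(primeCount H y : ℝ) - S * logSum H y| ≤ 2 * 2 ^ H.card * e + m + S * (m * 2 ^ H.card) := by
  classical
  intro y hy
  have he : 0 ≤ e := (abs_nonneg _).trans (hD 0 (Nat.zero_le _))
  have h2' : ∀ n, m ≤ n → ∀ f ∈ H, 2 ≤ |f.eval (n : ℤ)| := fun n hn f hf => (h2 f hf n hn).trans (le_abs_self _)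
  obtain ⟨φ, hφ⟩ : ∃ φ : ℕ → ℝ, φ = fun n : ℕ => (if ∀ f ∈ H, (f.eval (n : ℤ)).natAbs.Prime then (1 : ℝ) else 0) := ⟨_, rfl⟩
  obtain ⟨ψ, hψ⟩ : ∃ ψ : ℕ → ℝ, ψ = fun n : ℕ => (if ∀ f ∈ H, 2 ≤ |f.eval (n : ℤ)| then gH H n else 0) := ⟨_, rfl⟩
  have e1 : (primeCount H y : ℝ) = ∑ n ∈ Icc 1 y, φ n := by
    unfold primeCount
    rw [card_filter, hφ]
    push_cast
    rfl
  have e2 : logSum H y = ∑ n ∈ Icc 1 y, ψ n := by
    unfold logSum
    rw [sum_filter, hψ]
    rfl
  have e3 : (primeCount H y : ℝ) - S * logSum H y = ∑ n ∈ Icc 1 y, (φ n - S * ψ n) := by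
    rw [e1, e2, sum_sub_distrib, mul_sum]
  have hφ01 : ∀ n, 0 ≤ φ n ∧ φ n ≤ 1 := by
    intro n
    rw [hφ]
    simp only
    split_ifs <;> constructor <;> norm_num
  have hψ01 : ∀ n, 0 ≤ ψ n ∧ ψ n ≤ 2 ^ H.card := by
    intro n
    rw [hψ]
    simp only
    split_ifs with h
    · exact gH_nonneg H n h
    · exact ⟨le_rfl, by positivity⟩
  rw [e3]
  have e4 : ∑ n ∈ Icc 1 y, (φ n - S * ψ n) = ∑ n ∈ (Icc 1 y).filter (fun n => n < m), (φ n - S * ψ n) +
      ∑ n ∈ Icc m y, (φ n - S * ψ n) := by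
    rw [← sum_filter_add_sum_filter_not (Icc 1 y) (fun n => n < m)]
    congr 1
    apply sum_congr _ (fun _ _ => rfl)
    ext n
    rw [mem_filter, mem_Icc, mem_Icc]
    omega
  rw [e4]
  have b1 : |∑ n ∈ (Icc 1 y).filter (fun n => n < m), (φ n - S * ψ n)| ≤ m + S * (m * 2 ^ H.card) := by
    refine (abs_sum_le_sum_abs _ _).trans ?_
    have h3 : ∀ n ∈ (Icc 1 y).filter (fun n => n < m), |φ n - S * ψ n| ≤ 1 + S * 2 ^ H.card := by
      intro n _
      obtain ⟨f1, f2⟩ := hφ01 n
      obtain ⟨f3, f4⟩ := hψ01 n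
      have f5 : 0 ≤ S * ψ n := mul_nonneg hS f3
      have f6 : S * ψ n ≤ S * 2 ^ H.card := mul_le_mul_of_nonneg_left f4 hS
      rw [abs_le]
      constructor <;> linarith
    refine (sum_le_sum h3).trans ?_
    rw [sum_const, nsmul_eq_mul]
    have h4 : ((Icc 1 y).filter (fun n => n < m)).card ≤ m := by
      calc _ ≤ (range m).card := by
            apply card_le_card
            intro n hn
            rw [mem_filter] at hn
            exact mem_range.2 hn.2
        _ = m := card_range m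
    have h5 : (((Icc 1 y).filter (fun n => n < m)).card : ℝ) ≤ m := by exact_mod_cast h4
    have h6 : 0 ≤ 1 + S * 2 ^ H.card := by positivity
    calc _ ≤ (m : ℝ) * (1 + S * 2 ^ H.card) := mul_le_mul_of_nonneg_right h5 h6
      _ = _ := by ring
  have b2 : |∑ n ∈ Icc m y, (φ n - S * ψ n)| ≤ 2 * 2 ^ H.card * e := by
    rcases Nat.lt_or_ge y m with hym | hym
    · rw [Icc_eq_empty (by omega), sum_empty, abs_zero]
      positivity
    · have e5 : ∑ n ∈ Icc m y, (φ n - S * ψ n) = ∑ n ∈ Icc m y, gH H n * (TH H n - S) := by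
        apply sum_congr rfl
        intro n hn
        rw [mem_Icc] at hn
        have g1 := h2' n hn.1
        have e6 : ψ n = gH H n := by rw [hψ]; simp only; rw [if_pos g1]
        have e7 : φ n = gH H n * TH H n := by
          rw [hφ]
          simp only
          split_ifs with hpr
          · unfold gH TH
            have e8 : ∏ f ∈ H, lamP (f.eval (n : ℤ)) = ∏ f ∈ H, Real.log |((f.eval (n : ℤ) : ℤ) : ℝ)| := by
              apply prod_congr rfl
              intro f hf
              have g2 := h2 f hf n hn.1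
              have g3 : (f.eval (n : ℤ)).toNat.Prime := by
                have := hpr f hf
                rwa [show (f.eval (n : ℤ)).toNat = (f.eval (n : ℤ)).natAbs by omega]
              rw [(lamP_prime _ g3).1, abs_of_nonneg (by exact_mod_cast (by omega : (0 : ℤ) ≤ f.eval (n : ℤ)))]
            rw [e8, one_div, inv_mul_cancel₀]
            apply prod_ne_zero_iff.2
            intro f hf
            have := log_abs_ge _ (g1 f hf)
            linarith
          · push Not at hpr
            obtain ⟨f, hf, hnp⟩ := hpr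
            have g2 := h2 f hf n hn.1
            have : TH H n = 0 := by
              unfold TH
              apply prod_eq_zero hf
              unfold lamP
              rw [if_neg]
              rwa [show (f.eval (n : ℤ)).toNat = (f.eval (n : ℤ)).natAbs by omega]
            rw [this, mul_zero]
        rw [e6, e7]
        ring
      rw [e5]
      have g3 := abel (fun n => TH H n - S) (gH H) m hm e he y hym (by
        intro n hn1 hn2
        unfold gH
        apply one_div_le_one_div_of_le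
        · apply prod_pos
          intro f hf
          have := log_abs_ge _ (h2' n hn1 f hf)
          linarith
        · apply prod_le_prod
          · intro f hf
            have := log_abs_ge _ (h2' n hn1 f hf)
            linarith
          · intro f hf
            have g4 := h2 f hf n hn1
            have g5 := hmono f hf n (n + 1) hn1 (by omega)
            have g6 : (2 : ℝ) ≤ ((f.eval (n : ℤ) : ℤ) : ℝ) := by exact_mod_cast g4
            have g7 : ((f.eval (n : ℤ) : ℤ) : ℝ) ≤ ((f.eval (((n + 1 : ℕ)) : ℤ) : ℤ) : ℝ) := by exact_mod_cast g5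
            rw [abs_of_nonneg (by linarith), abs_of_nonneg (by linarith)]
            exact Real.log_le_log (by linarith) g7) (gH_nonneg H y (h2' y hym)).1 (by
        intro t ht
        have := hD t (ht.trans hy)
        have e9 : ∑ n ∈ Icc 1 t, (TH H n - S) = ∑ n ∈ Icc 1 t, TH H n - S * t := by
          rw [sum_sub_distrib, sum_const, nsmul_eq_mul, Nat.card_Icc, Nat.add_sub_cancel]
          ring
        rw [e9]
        exact this)
      refine g3.trans ?_
      have g8 := (gH_nonneg H m (h2' m le_rfl)).2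
      have : 2 * gH H m * e ≤ 2 * 2 ^ H.card * e := by
        apply mul_le_mul_of_nonneg_right _ he
        linarith
      exact this
  refine (abs_add_le _ _).trans ?_
  linarith

end Pool.Agent.N791.CT
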