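import Mathlib
import Pool.Agent.N791.CT.C
import Pool.Agent.H373R2.T7.PArg

set_option autoImplicit false

/-! The translation to sets of polynomials. -/

namespace Pool.Agent.N791.CT
open Finset Polynomial
open Pool.Agent.H373R2.T7

variable {k : ℕ}

lemma card_Icc_range (D : ℕ → Prop) [DecidablePred D] (p : ℕ) (hp : 1 ≤ p) (h : D 0 ↔ D p) :
    ((Icc 1 p).filter D).card = ((range p).filter D).card := by
  obtain ⟨q, rfl⟩ : ∃ q, p = q + 1 := ⟨p - 1, by omega⟩
  have e1 : Icc 1 (q + 1) = insert (q + 1) (Icc 1 q) := by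
    ext n
    rw [mem_insert, mem_Icc, mem_Icc]
    omega
  have e2 : range (q + 1) = insert 0 (Icc 1 q) := by
    ext n
    rw [mem_insert, mem_Icc, mem_range]
    omega
  have n1 : q + 1 ∉ (Icc 1 q).filter D := fun h => by
    rw [mem_filter, mem_Icc] at h
    omega
  have n2 : 0 ∉ (Icc 1 q).filter D := fun h => by
    rw [mem_filter, mem_Icc] at h
    omega
  rw [e1, e2, filter_insert, filter_insert]
  by_cases h0 : D 0
  · rw [if_pos h0, if_pos (h.1 h0), card_insert_of_notMem n1, card_insert_of_notMem n2]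
  · rw [if_neg h0, if_neg (fun h1 => h0 (h.2 h1))]

lemma omega_range (H : Finset ℤ[X]) (p : ℕ) (hp : 1 ≤ p) :
    omega H p = ((range p).filter (fun n : ℕ => (p : ℤ) ∣ ∏ f ∈ H, f.eval (n : ℤ))).card := by
  classical
  unfold omega
  have h := card_Icc_range (fun n : ℕ => (p : ℤ) ∣ ∏ f ∈ H, f.eval (n : ℤ)) p hp (by
    have e : ∀ n : ℤ, ∏ f ∈ H, f.eval n = (∏ f ∈ H, f).eval n := by
      intro n
      rw [eval_prod]
    rw [e, e]
    have h1 : (((p : ℕ) : ℤ) - ((0 : ℕ) : ℤ)) ∣ (∏ f ∈ H, f).eval ((p : ℕ) : ℤ) - (∏ f ∈ H, f).eval ((0 : ℕ) : ℤ) :=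
      sub_dvd_eval_sub _ _ _
    rw [Nat.cast_zero, sub_zero] at h1
    exact (dvd_iff_dvd_of_dvd_sub h1).symm)
  convert h

/-- the members of the family are different -/
def Dist (P : Finset ℤ[X]) (F : Fin k → ℤ[X]) (a : Fin k → ℕ) : Prop :=
  (∀ i j, i ≠ j → F i + C (a i : ℤ) ≠ F j + C (a j : ℤ)) ∧ ∀ i, F i + C (a i : ℤ) ∉ P

lemma prod_family {M : Type*} [CommMonoid M] (P : Finset ℤ[X]) (F : Fin k → ℤ[X]) (a : Fin k → ℕ) (h : Dist P F a)
    (φ : ℤ[X] → M) : ∏ f ∈ family P F a, φ f = (∏ f ∈ P, φ f) * ∏ i, φ (F i + C (a i : ℤ)) := by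
  classical
  unfold family
  rw [prod_union, prod_image]
  · intro i _ j _ hij
    by_contra hne
    exact h.1 i j hne hij
  · rw [disjoint_right]
    intro f hf
    rw [mem_image] at hf
    obtain ⟨i, _, rfl⟩ := hf
    exact h.2 i

lemma card_family (P : Finset ℤ[X]) (F : Fin k → ℤ[X]) (a : Fin k → ℕ) (h : Dist P F a) :
    (family P F a).card = P.card + k := by
  classical
  unfold family
  rw [card_union_of_disjoint, card_image_of_injective, card_univ, Fintype.card_fin]
  · intro i j hij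
    by_contra hne
    exact h.1 i j hne hij
  · rw [disjoint_right]
    intro f hf
    rw [mem_image] at hf
    obtain ⟨i, _, rfl⟩ := hf
    exact h.2 i

lemma mem_family (P : Finset ℤ[X]) (F : Fin k → ℤ[X]) (a : Fin k → ℕ) (f : ℤ[X]) :
    f ∈ family P F a ↔ f ∈ P ∨ ∃ i, F i + C (a i : ℤ) = f := by
  classical
  unfold family
  rw [mem_union, mem_image]
  simp

lemma eval_mem (F : Fin k → ℤ[X]) (a : Fin k → ℕ) (i : Fin k) (n : ℕ) :
    (F i + C (a i : ℤ)).eval (n : ℤ) = vl F sp a i n := by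
  rw [vl_sp, eval_add, eval_C]

lemma TH_empty (F : Fin k → ℤ[X]) (a : Fin k → ℕ) (h : Dist ∅ F a) (n : ℕ) :
    TH (family ∅ F a) n = (1 : ℝ) * ∏ i, lamP (vl F sp a i n) := by
  unfold TH
  rw [prod_family ∅ F a h (fun f => lamP (f.eval (n : ℤ))), prod_empty]
  congr 1
  apply prod_congr rfl
  intro i _
  rw [eval_mem]

lemma TH_X (F : Fin k → ℤ[X]) (a : Fin k → ℕ) (h : Dist {X} F a) (n : ℕ) :
    TH (family {X} F a) n = wp n * ∏ i, lamP (vl F sp a i n) := by
  unfold TH
  rw [prod_family {X} F a h (fun f => lamP (f.eval (n : ℤ))), prod_singleton]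
  congr 1
  · rw [eval_X]
    unfold lamP wp
    rw [Int.toNat_natCast]
  · apply prod_congr rfl
    intro i _
    rw [eval_mem]

lemma euler_empty (F : Fin k → ℤ[X]) (a : Fin k → ℕ) (h : Dist ∅ F a) (z : ℕ) :
    eulerProd (family ∅ F a) z = ((Vz z)⁻¹) ^ k * ∏ p ∈ pz z, (1 - (nuB (sysQ F sp a) p : ℝ) / p) := by
  classical
  unfold eulerProd Vz pz
  rw [← prod_inv_distrib, ← prod_pow, ← prod_mul_distrib]
  apply prod_congr rfl
  intro p hp
  have hpp := (mem_filter.1 hp).2
  have e : omega (family ∅ F a) p = nuB (sysQ F sp a) p := by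
    rw [omega_range _ _ hpp.one_le]
    unfold nuB
    congr 1
    apply filter_congr
    intro n _
    rw [prod_family ∅ F a h (fun f => f.eval (n : ℤ)), prod_empty, one_mul,
      Prime.dvd_finsetProd_iff (Nat.prime_iff_prime_int.1 hpp)]
    unfold sysQ
    constructor
    · rintro ⟨i, _, hi⟩
      exact ⟨i, by rw [← eval_mem]; exact hi⟩
    · rintro ⟨i, hi⟩
      exact ⟨i, mem_univ _, by rw [eval_mem]; exact hi⟩
  rw [e, card_family ∅ F a h, card_empty, zero_add, inv_pow, div_eq_inv_mul]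

lemma euler_X (F : Fin k → ℤ[X]) (a : Fin k → ℕ) (h : Dist {X} F a) (z : ℕ) :
    eulerProd (family {X} F a) z = PArg.sing F a z := by
  classical
  unfold eulerProd PArg.sing
  apply prod_congr rfl
  intro p hp
  have hpp := (mem_filter.1 hp).2
  have e : omega (family {X} F a) p = PArg.omega F a p := by
    rw [omega_range _ _ hpp.one_le]
    unfold PArg.omega
    congr 1
    apply filter_congr
    intro n _
    rw [prod_family {X} F a h (fun f => f.eval (n : ℤ)), prod_singleton, eval_X]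
    have e2 : ∏ i, (F i + C (a i : ℤ)).eval (n : ℤ) = ∏ i, ((F i).eval (n : ℤ) + a i) := by
      apply prod_congr rfl
      intro i _
      rw [eval_add, eval_C]
    rw [e2]
  rw [e, card_family {X} F a h, card_singleton, add_comm 1 k]

/-- vectors with a coordinate determined by the others -/
lemma slice (A : Fin k → ℕ) (R : (Fin k → ℕ) → Prop) [DecidablePred R] (i : Fin k)
    (hR : ∀ a a', R a → R a' → (∀ l, l ≠ i → a l = a' l) → a i = a' i) :
    ((Fintype.piFinset (fun i => Icc 1 (A i))).filter R).card * A i ≤ ∏ i, A i := by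
  classical
  have h1 : (((Fintype.piFinset (fun i => Icc 1 (A i))).filter R) ×ˢ (Icc 1 (A i))).card ≤
      (Fintype.piFinset (fun i => Icc 1 (A i))).card := by
    apply card_le_card_of_injOn (fun q : (Fin k → ℕ) × ℕ => Function.update q.1 i q.2)
    · intro q hq
      rw [mem_coe, mem_product, mem_filter] at hq
      rw [mem_coe, Fintype.mem_piFinset]
      intro l
      by_cases hl : l = i
      · subst hl
        show Function.update q.1 l q.2 l ∈ Icc 1 (A l)
        rw [Function.update_self]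
        exact hq.2
      · show Function.update q.1 i q.2 l ∈ Icc 1 (A l)
        rw [Function.update_of_ne hl]
        exact Fintype.mem_piFinset.1 hq.1.1 l
    · intro q hq q' hq' hqq
      rw [mem_coe, mem_product, mem_filter] at hq hq'
      simp only at hqq
      have h2 : q.2 = q'.2 := by
        have := congrFun hqq i
        rwa [Function.update_self, Function.update_self] at this
      have h3 : ∀ l, l ≠ i → q.1 l = q'.1 l := by
        intro l hl
        have := congrFun hqq l
        rwa [Function.update_of_ne hl, Function.update_of_ne hl] at this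
      have h4 := hR q.1 q'.1 hq.1.2 hq'.1.2 h3
      refine Prod.ext ?_ h2
      funext l
      by_cases hl : l = i
      · rw [hl]; exact h4
      · exact h3 l hl
  rw [card_product, Nat.card_Icc, Nat.add_sub_cancel, Fintype.card_piFinset] at h1
  simpa using h1

open Classical in
lemma dist_few (F : Fin k → ℤ[X]) (hd : ∀ i, 1 ≤ (F i).natDegree) (P : Finset ℤ[X]) (hP : P ⊆ {X}) (B U : ℕ) :
    ∃ N0 : ℕ, ∀ x : ℕ, N0 ≤ x → ∀ A : Fin k → ℕ,
      (∀ i, x ^ (F i).natDegree ≤ B * A i) →
      (((Fintype.piFinset (fun i => Icc 1 (A i))).filter (fun a => ¬ Dist P F a)).card : ℝ) ≤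
        (∏ i, (A i : ℝ)) / Real.log x ^ U := by
  obtain ⟨N1, h1⟩ := ev_log' U ((k * k + k) * B + 1)
  refine ⟨N1 + 3, fun x hx A hA => ?_⟩
  have k1 := h1 x (by omega)
  have hxr : (3 : ℝ) ≤ x := by exact_mod_cast (by omega : 3 ≤ x)
  have hx0 : (0 : ℝ) < x := by linarith
  have hL0 : 0 < Real.log x := Real.log_pos (by linarith)
  have hss : √(x : ℝ) ≤ x := by
    rw [Real.sqrt_le_left hx0.le]
    nlinarith
  obtain ⟨box, hbox⟩ : ∃ box, box = Fintype.piFinset (fun i => Icc 1 (A i)) := ⟨_, rfl⟩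
  rw [← hbox]
  have hAx : ∀ i, x ≤ B * A i := by
    intro i
    refine le_trans ?_ (hA i)
    calc x = x ^ 1 := (pow_one x).symm
      _ ≤ x ^ (F i).natDegree := Nat.pow_le_pow_right (by omega) (hd i)
  have hone : ∀ (R : (Fin k → ℕ) → Prop) [DecidablePred R] (i : Fin k), (∀ a a', R a → R a' → (∀ l, l ≠ i → a l = a' l) → a i = a' i) →
      (box.filter R).card * x ≤ B * ∏ i, A i := by
    intro R _ i hR
    have h2 := slice A R i hR
    rw [← hbox] at h2
    calc (box.filter R).card * x ≤ (box.filter R).card * (B * A i) := Nat.mul_le_mul_left _ (hAx i)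
      _ = B * ((box.filter R).card * A i) := by ring
      _ ≤ _ := Nat.mul_le_mul_left _ h2
  have hsub : box.filter (fun a => ¬ Dist P F a) ⊆
      ((univ : Finset (Fin k × Fin k)).biUnion (fun q => box.filter (fun a => q.1 ≠ q.2 ∧ F q.1 + C (a q.1 : ℤ) = F q.2 + C (a q.2 : ℤ)))) ∪
      ((univ : Finset (Fin k)).biUnion (fun i => box.filter (fun a => F i + C (a i : ℤ) = X))) := by
    intro a ha
    rw [mem_filter] at ha
    obtain ⟨ha1, ha2⟩ := ha
    unfold Dist at ha2
    rw [not_and_or] at ha2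
    rw [mem_union]
    rcases ha2 with h | h
    · left
      push Not at h
      obtain ⟨i, j, hij, hh⟩ := h
      rw [mem_biUnion]
      exact ⟨(i, j), mem_univ _, mem_filter.2 ⟨ha1, hij, hh⟩⟩
    · right
      push Not at h
      obtain ⟨i, hi⟩ := h
      rw [mem_biUnion]
      exact ⟨i, mem_univ _, mem_filter.2 ⟨ha1, mem_singleton.1 (hP hi)⟩⟩
  have c1 : ∀ q ∈ (univ : Finset (Fin k × Fin k)), (box.filter (fun a => q.1 ≠ q.2 ∧ F q.1 + C (a q.1 : ℤ) = F q.2 + C (a q.2 : ℤ))).card * x ≤ B * ∏ i, A i := by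
    intro q _
    apply hone _ q.1
    rintro a a' ⟨hne, h2⟩ ⟨_, h3⟩ h4
    rw [h4 q.2 hne.symm] at h2
    have h5 : F q.1 + C (a q.1 : ℤ) = F q.1 + C (a' q.1 : ℤ) := h2.trans h3.symm
    have h6 := C_injective (add_left_cancel h5)
    exact_mod_cast h6
  have c2 : ∀ i ∈ (univ : Finset (Fin k)), (box.filter (fun a => F i + C (a i : ℤ) = X)).card * x ≤ B * ∏ i, A i := by
    intro i _
    apply hone _ i
    intro a a' h2 h3 _
    have h5 : F i + C (a i : ℤ) = F i + C (a' i : ℤ) := h2.trans h3.symm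
    have h6 := C_injective (add_left_cancel h5)
    exact_mod_cast h6
  have htot : (box.filter (fun a => ¬ Dist P F a)).card * x ≤ (k * k + k) * (B * ∏ i, A i) := by
    have g1 := (card_le_card hsub).trans (card_union_le _ _)
    have g2 := g1.trans (Nat.add_le_add card_biUnion_le card_biUnion_le)
    have g3 := Nat.mul_le_mul_right x g2
    refine g3.trans ?_
    rw [add_mul, sum_mul, sum_mul, add_mul]
    apply Nat.add_le_add
    · refine (sum_le_sum c1).trans (le_of_eq ?_)
      rw [sum_const, card_univ, Fintype.card_prod, Fintype.card_fin, smul_eq_mul]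
    · refine (sum_le_sum c2).trans (le_of_eq ?_)
      rw [sum_const, card_univ, Fintype.card_fin, smul_eq_mul]
  have htr : ((box.filter (fun a => ¬ Dist P F a)).card : ℝ) * x ≤ (k * k + k) * (B * ∏ i, (A i : ℝ)) := by exact_mod_cast htot
  rw [le_div_iff₀ (by positivity)]
  have hprod : 0 ≤ ∏ i, (A i : ℝ) := prod_nonneg fun _ _ => Nat.cast_nonneg _
  have h3 : ((box.filter (fun a => ¬ Dist P F a)).card : ℝ) * Real.log x ^ U * x ≤ (∏ i, (A i : ℝ)) * x := by
    calc ((box.filter (fun a => ¬ Dist P F a)).card : ℝ) * Real.log x ^ U * x =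
        (((box.filter (fun a => ¬ Dist P F a)).card : ℝ) * x) * Real.log x ^ U := by ring
      _ ≤ ((k * k + k) * (B * ∏ i, (A i : ℝ))) * Real.log x ^ U := mul_le_mul_of_nonneg_right htr (by positivity)
      _ = (∏ i, (A i : ℝ)) * (((k * k + k) * B) * Real.log x ^ U) := by ring
      _ ≤ (∏ i, (A i : ℝ)) * x := by
          apply mul_le_mul_of_nonneg_left _ hprod
          have h4 : 0 ≤ Real.log x ^ U := by positivity
          nlinarith
  exact le_of_mul_le_mul_right h3 hx0

end Pool.Agent.N791.CT
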