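import Mathlib
import Pool.Agent.N791.CT.D

set_option autoImplicit false

/-! The weighted asymptotic formula for the sets of polynomials. -/

namespace Pool.Agent.N791.CT
open Finset Polynomial
open Pool.Agent.H373R2.T7

variable {k : ℕ}

/-- the weighted formula for all initial segments and the bounds for the constant -/
def GoodW (P : Finset ℤ[X]) (F : Fin k → ℤ[X]) (m : ℕ) (c0 : ℝ) (U x z : ℕ) (a : Fin k → ℕ) : Prop :=
  Dist P F a ∧
  (∀ y : ℕ, y ≤ x → |∑ n ∈ Icc 1 y, TH (family P F a) n - eulerProd (family P F a) z * y| ≤ x / Real.log x ^ U) ∧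
  0 ≤ eulerProd (family P F a) z ∧ eulerProd (family P F a) z ≤ Real.log x ^ (k + 1) ∧
  (eulerProd (family P F a) z ≠ 0 → c0 / Real.log x ^ m ≤ eulerProd (family P F a) z)

/-- the conclusion of the weighted theorem -/
def Concl (P : Finset ℤ[X]) (F : Fin k → ℤ[X]) (m : ℕ) (c0 : ℝ) : Prop :=
  ∀ B : ℕ, 1 ≤ B → ∀ U : ℕ, ∃ B0 : ℕ, ∀ E : ℕ, ∃ N0 : ℕ, ∀ x : ℕ, N0 ≤ x → ∀ A : Fin k → ℕ,
      (∀ i, A i ≤ B * x ^ (F i).natDegree ∧ x ^ (F i).natDegree ≤ B * A i) →
      ∀ z : ℕ, Real.log x ^ B0 ≤ z → (z : ℝ) ≤ Real.log x ^ E →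
      ∃ S : Finset (Fin k → ℕ), (S.card : ℝ) ≤ (∏ i, (A i : ℝ)) / Real.log x ^ U ∧
        ∀ a ∈ Fintype.piFinset (fun i => Icc 1 (A i)), a ∉ S → GoodW P F m c0 U x z a

lemma core_gen (F : Fin k → ℤ[X]) (hd : ∀ i, 1 ≤ (F i).natDegree) (hl : ∀ i, 0 < (F i).leadingCoeff)
    (P : Finset ℤ[X]) (hP : P ⊆ {X}) (w : ℕ → ℝ) (dn : (ℕ → ℕ → Prop) → ℕ → ℝ) (hw : WD w dn (sysC F))
    (m : ℕ) (c0 : ℝ)
    (hT : ∀ a, Dist P F a → ∀ n, TH (family P F a) n = w n * ∏ i, lamP (vl F sp a i n))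
    (hE : ∀ a, Dist P F a → ∀ z, eulerProd (family P F a) z = den F dn z a)
    (hlow : ∀ a, Dist P F a → ∀ z, ∀ L : ℝ, 1 ≤ L → (Vz z)⁻¹ ≤ L → eulerProd (family P F a) z ≠ 0 →
      c0 / L ^ m ≤ eulerProd (family P F a) z) : Concl P F m c0 := by
  classical
  intro B hB U
  obtain ⟨B0, hB0⟩ := seg F hd hl w dn hw B hB (U + 1)
  refine ⟨B0, fun E => ?_⟩
  obtain ⟨N1, h1⟩ := hB0 E
  obtain ⟨N2, h2⟩ := dist_few F hd P hP B (U + 1)
  obtain ⟨N3, h3⟩ := ev_L' 2
  obtain ⟨N4, h4⟩ := Vz_inv_small E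
  refine ⟨N1 + N2 + N3 + N4, fun x hx A hA z hz1 hz2 => ?_⟩
  obtain ⟨S, hS1, hS2⟩ := h1 x (by omega) A hA z hz1 hz2
  have k2 := h2 x (by omega) A (fun i => (hA i).2)
  have k3 := h3 x (by omega)
  obtain ⟨L, hL⟩ : ∃ L, L = Real.log (x : ℝ) := ⟨_, rfl⟩
  have hL1 : 1 ≤ L := by rw [hL]; linarith
  have hL0 : 0 < L := by linarith
  have hz : 1 ≤ z := by
    have : (1 : ℝ) ≤ z := (one_le_pow₀ (by rw [← hL]; exact hL1)).trans hz1
    exact_mod_cast this
  have k4 := h4 x (by omega) z hz hz2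
  have hx0 : (0 : ℝ) ≤ x := Nat.cast_nonneg _
  have hprod : 0 ≤ ∏ i, (A i : ℝ) := prod_nonneg fun _ _ => Nat.cast_nonneg _
  refine ⟨S ∪ (Fintype.piFinset (fun i => Icc 1 (A i))).filter (fun a => ¬ Dist P F a), ?_, ?_⟩
  · have e1 : ((S ∪ (Fintype.piFinset (fun i => Icc 1 (A i))).filter (fun a => ¬ Dist P F a)).card : ℝ) ≤
        S.card + ((Fintype.piFinset (fun i => Icc 1 (A i))).filter (fun a => ¬ Dist P F a)).card := by
      exact_mod_cast card_union_le _ _
    refine e1.trans ((add_le_add hS1 k2).trans ?_)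
    rw [← hL] at k3 ⊢
    have e2 : (∏ i, (A i : ℝ)) / L ^ U = L * ((∏ i, (A i : ℝ)) / L ^ (U + 1)) := by
      rw [pow_succ]
      field_simp
    rw [e2]
    have e3 : 0 ≤ (∏ i, (A i : ℝ)) / L ^ (U + 1) := by positivity
    nlinarith
  · intro a ha haS
    rw [mem_union, not_or] at haS
    obtain ⟨g1, g2⟩ := haS
    have hdist : Dist P F a := by
      by_contra h
      exact g2 (mem_filter.2 ⟨ha, h⟩)
    have hseg := hS2 a ha g1
    have hee := hE a hdist z
    rw [← hL] at k4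
    have hV0 : 0 ≤ (Vz z)⁻¹ := (inv_pos.2 (Vz_pos z)).le
    refine ⟨hdist, ?_, ?_, ?_, ?_⟩
    · intro y hy
      have h5 := hseg y hy
      rw [hee]
      have e1 : ∑ n ∈ Icc 1 y, TH (family P F a) n = ∑ n ∈ Icc 1 y, w n * ∏ i, lamP (vl F sp a i n) :=
        sum_congr rfl fun n _ => hT a hdist n
      rw [e1]
      refine h5.trans ?_
      rw [← hL]
      apply div_le_div_of_nonneg_left hx0 (by positivity)
      exact pow_le_pow_right₀ hL1 (by omega)
    · rw [hee]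
      unfold den
      exact mul_nonneg (pow_nonneg hV0 _) (hw.d0 _ _)
    · rw [hee, ← hL]
      unfold den
      calc (Vz z)⁻¹ ^ k * dn (sysQ F sp a) z ≤ L ^ k * 1 :=
            mul_le_mul (pow_le_pow_left₀ hV0 k4 _) (hw.d1 _ _) (hw.d0 _ _) (by positivity)
        _ = L ^ k := mul_one _
        _ ≤ L ^ (k + 1) := pow_le_pow_right₀ hL1 (by omega)
    · intro h0
      rw [← hL]
      exact hlow a hdist z L hL1 k4 h0

theorem core (F : Fin k → ℤ[X]) (hd : ∀ i, 1 ≤ (F i).natDegree) (hl : ∀ i, 0 < (F i).leadingCoeff)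
    (P : Finset ℤ[X]) (hP : P ⊆ {X}) : ∃ (m : ℕ) (c0 : ℝ), 0 < c0 ∧ Concl P F m c0 := by
  classical
  rcases Finset.subset_singleton_iff.1 hP with rfl | rfl
  · have hm := sysC_pos F
    have hm0 : (0 : ℝ) < (sysC F : ℕ) := by exact_mod_cast hm
    refine ⟨sysC F, (1 / (3 * (sysC F : ℕ) : ℝ)) ^ (3 * sysC F) * Real.exp (-(2 * ((sysC F : ℕ) : ℝ) ^ 2)), by positivity, ?_⟩
    refine core_gen F hd hl ∅ hP (fun _ => 1) _ (wd_one (sysC F) hm) _ _ ?_ ?_ ?_
    · intro a ha n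
      exact TH_empty F a ha n
    · intro a ha z
      exact euler_empty F a ha z
    · intro a ha z L hL1 hV h0
      rw [euler_empty F a ha z] at h0 ⊢
      exact sing_low _ _ hm (sysQ_per F hd hl sp sp_pm a) z L hL1 hV h0
  · have hd' := PArg.eF_deg F hd
    have hl' := PArg.eF_lc F hl
    have hm := sysC_pos (PArg.eF F)
    have hm0 : (0 : ℝ) < (sysC (PArg.eF F) : ℕ) := by exact_mod_cast hm
    refine ⟨sysC (PArg.eF F), (1 / (3 * (sysC (PArg.eF F) : ℕ) : ℝ)) ^ (3 * sysC (PArg.eF F)) *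
      Real.exp (-(2 * ((sysC (PArg.eF F) : ℕ) : ℝ) ^ 2)), by positivity, ?_⟩
    refine core_gen F hd hl {X} hP wp _ (wd_wp (sysC F) (sysC_pos F)) _ _ ?_ ?_ ?_
    · intro a ha n
      exact TH_X F a ha n
    · intro a ha z
      rw [euler_X F a ha z, ← PArg.dens_eq]
      rfl
    · intro a ha z L hL1 hV h0
      rw [euler_X F a ha z, PArg.sing_eq] at h0 ⊢
      exact sing_low _ _ hm (sysQ_per (PArg.eF F) hd' hl' PArg.eσ PArg.eσ_pm (PArg.eA a)) z L hL1 hV h0

/-- the upper bound for the values -/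
lemma val_le (F : Fin k → ℤ[X]) (P : Finset ℤ[X]) (hP : P ⊆ {X}) (B : ℕ) :
    ∃ (D N0 : ℕ), ∀ x : ℕ, N0 ≤ x → ∀ A : Fin k → ℕ, (∀ i, A i ≤ B * x ^ (F i).natDegree) →
      ∀ a ∈ Fintype.piFinset (fun i => Icc 1 (A i)), ∀ n ∈ Icc 1 x, ∀ f ∈ family P F a, 2 ≤ f.eval (n : ℤ) →
        Real.log |((f.eval (n : ℤ) : ℤ) : ℝ)| ≤ (D + 1) * Real.log x := by
  obtain ⟨N1, h1⟩ := ev_L' (Real.log (cst F B) + 1)
  refine ⟨∑ i, (F i).natDegree, N1 + 3, fun x hx A hA a ha n hn f hf h2 => ?_⟩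
  have k1 := h1 x (by omega)
  have hxr : (3 : ℝ) ≤ x := by exact_mod_cast (by omega : 3 ≤ x)
  have hx0 : (0 : ℝ) < x := by linarith
  have hL0 : 0 < Real.log x := Real.log_pos (by linarith)
  have h2r : (2 : ℝ) ≤ ((f.eval (n : ℤ) : ℤ) : ℝ) := by exact_mod_cast h2
  rw [abs_of_nonneg (by linarith)]
  rw [mem_family] at hf
  rcases hf with hf | ⟨i, rfl⟩
  · have := mem_singleton.1 (hP hf)
    subst this
    rw [eval_X]
    rw [mem_Icc] at hn
    have h3 : Real.log (((n : ℤ) : ℝ)) ≤ Real.log x := by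
      apply Real.log_le_log
      · exact_mod_cast hn.1
      · exact_mod_cast hn.2
    have h4 : (0 : ℝ) ≤ ((∑ i, (F i).natDegree : ℕ) : ℝ) := Nat.cast_nonneg _
    nlinarith
  · have hai := Fintype.mem_piFinset.1 ha i
    have h3 := vl_le' F sp sp_pm B x i (A i) (hA i) n (a i) hn hai
    have h4 : (F i + C (a i : ℤ)).eval (n : ℤ) ≤ ((cst F B * x ^ (F i).natDegree : ℕ) : ℤ) := by
      rw [eval_mem]
      exact h3
    have h5 : (((F i + C (a i : ℤ)).eval (n : ℤ) : ℤ) : ℝ) ≤ (cst F B : ℝ) * (x : ℝ) ^ (F i).natDegree := by exact_mod_cast h4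
    have hc0 : (0 : ℝ) < cst F B := by
      rcases Nat.eq_zero_or_pos (cst F B) with h | h
      · rw [h] at h5
        simp only [Nat.cast_zero, zero_mul] at h5
        linarith
      · exact_mod_cast h
    have h6 := Real.log_le_log (by linarith) h5
    rw [Real.log_mul hc0.ne' (by positivity), Real.log_pow] at h6
    have h7 : ((F i).natDegree : ℝ) ≤ ((∑ i, (F i).natDegree : ℕ) : ℝ) := by
      exact_mod_cast single_le_sum (f := fun i => (F i).natDegree) (fun _ _ => Nat.zero_le _) (mem_univ i)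
    nlinarith

/-- no fixed prime divisor -/
lemma euler_ne_zero (H : Finset ℤ[X]) (z : ℕ) (h : ∀ p : ℕ, p.Prime → omega H p < p) : eulerProd H z ≠ 0 := by
  unfold eulerProd
  rw [prod_ne_zero_iff]
  intro p hp
  have hpp := (mem_filter.1 hp).2
  have hp0 : (0 : ℝ) < p := by exact_mod_cast hpp.pos
  have hp1 : (1 : ℝ) < p := by exact_mod_cast hpp.one_lt
  have h1 : (omega H p : ℝ) < p := by exact_mod_cast h p hpp
  have h2 : (omega H p : ℝ) / p < 1 := by rw [div_lt_one hp0]; exact h1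
  have h3 : 1 / (p : ℝ) < 1 := by rw [div_lt_one hp0]; exact hp1
  apply div_ne_zero
  · linarith
  · apply pow_ne_zero
    linarith

/-- the conclusion for one vector of constant terms -/
def Good (P : Finset ℤ[X]) (F : Fin k → ℤ[X]) (U x z : ℕ) (a : Fin k → ℕ) : Prop :=
  (family P F a).card = P.card + k ∧
  (∀ y : ℕ, y ≤ x → |(primeCount (family P F a) y : ℝ) - eulerProd (family P F a) z * logSum (family P F a) y| ≤
    x / Real.log x ^ U) ∧
  ((∀ p : ℕ, p.Prime → omega (family P F a) p < p) → ∀ y : ℕ, (x : ℝ) / Real.log x ^ U ≤ y → y ≤ x →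
    |(primeCount (family P F a) y : ℝ) - eulerProd (family P F a) z * logSum (family P F a) y| ≤
      eulerProd (family P F a) z * logSum (family P F a) y / Real.log x ^ U)

set_option maxHeartbeats 1000000 in
theorem main (F : Fin k → ℤ[X]) (hd : ∀ i, 1 ≤ (F i).natDegree) (hl : ∀ i, 0 < (F i).leadingCoeff)
    (P : Finset ℤ[X]) (hP : P ⊆ {X}) (B : ℕ) (hB : 1 ≤ B) (U : ℕ) :
    ∃ B0 : ℕ, ∀ E : ℕ, ∃ N0 : ℕ, ∀ x : ℕ, N0 ≤ x → ∀ A : Fin k → ℕ,
      (∀ i, A i ≤ B * x ^ (F i).natDegree ∧ x ^ (F i).natDegree ≤ B * A i) →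
      ∀ z : ℕ, Real.log x ^ B0 ≤ z → (z : ℝ) ≤ Real.log x ^ E →
      ∃ S : Finset (Fin k → ℕ), (S.card : ℝ) ≤ (∏ i, (A i : ℝ)) / Real.log x ^ U ∧
        ∀ a ∈ Fintype.piFinset (fun i => Icc 1 (A i)), a ∉ S → Good P F U x z a := by
  classical
  obtain ⟨m, c0, hc0, hcore⟩ := core F hd hl P hP
  obtain ⟨n0, hn0, hpos⟩ := pos_mono F hd hl
  obtain ⟨D, N1, h1⟩ := val_le F P hP B
  obtain ⟨U', hU'⟩ : ∃ U' : ℕ, U' = 2 * U + m + k + 2 := ⟨_, rfl⟩
  obtain ⟨B0, hB0⟩ := hcore B hB (U' + 1)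
  refine ⟨B0, fun E => ?_⟩
  obtain ⟨N2, h2⟩ := hB0 E
  obtain ⟨N3, h3⟩ := ev_L' (2 ^ (k + 3) + 2 * ((D : ℝ) + 1) ^ (k + 1) / c0 + 2)
  obtain ⟨N4, h4⟩ := ev_log' (k + 1 + U') (4 * n0 * 2 ^ (k + 1) + 4)
  refine ⟨N1 + N2 + N3 + N4 + 3, fun x hx A hA z hz1 hz2 => ?_⟩
  obtain ⟨S, hS1, hS2⟩ := h2 x (by omega) A hA z hz1 hz2
  have k1 := h1 x (by omega) A (fun i => (hA i).1)
  have k3 := h3 x (by omega)
  have k4 := h4 x (by omega)
  have hx3 : 3 ≤ x := by omega
  have hxr : (3 : ℝ) ≤ x := by exact_mod_cast hx3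
  have hx0 : (0 : ℝ) < x := by linarith
  have hss : √(x : ℝ) ≤ x := by
    rw [Real.sqrt_le_left hx0.le]
    nlinarith
  obtain ⟨L, hL⟩ : ∃ L, L = Real.log (x : ℝ) := ⟨_, rfl⟩
  have hprod : 0 ≤ ∏ i, (A i : ℝ) := prod_nonneg fun _ _ => Nat.cast_nonneg _
  have hD1 : (0 : ℝ) < ((D : ℝ) + 1) ^ (k + 1) := by positivity
  have q1 : 0 < 2 * ((D : ℝ) + 1) ^ (k + 1) / c0 := by positivity
  have q2 : (0 : ℝ) < 2 ^ (k + 3) := by positivity
  rw [← hL] at hS1 k3 k4 k1
  have hL1 : 1 ≤ L := by linarith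
  have hL0 : 0 < L := by linarith
  have hLk : 2 ^ (k + 3) ≤ L := by linarith
  have hLD : 2 * ((D : ℝ) + 1) ^ (k + 1) ≤ c0 * L := by
    have : 2 * ((D : ℝ) + 1) ^ (k + 1) / c0 ≤ L := by linarith
    rw [div_le_iff₀ hc0] at this
    linarith
  have hn0r : (0 : ℝ) ≤ n0 := Nat.cast_nonneg _
  refine ⟨S, ?_, ?_⟩
  · refine hS1.trans ?_
    rw [← hL]
    apply div_le_div_of_nonneg_left hprod (by positivity)
    exact pow_le_pow_right₀ hL1 (by omega)
  · intro a ha haS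
    obtain ⟨hdist, hT, hs0, hs1, hs2⟩ := hS2 a ha haS
    rw [← hL] at hT hs1 hs2
    obtain ⟨H, hH⟩ : ∃ H, H = family P F a := ⟨_, rfl⟩
    have hcard : H.card = P.card + k := by rw [hH]; exact card_family P F a hdist
    have hPc : P.card ≤ 1 := by
      have := card_le_card hP
      rwa [card_singleton] at this
    have hcard' : H.card ≤ k + 1 := by omega
    have hmem : ∀ f ∈ H, f = X ∨ ∃ i, f = F i + C (a i : ℤ) := by
      intro f hf
      rw [hH, mem_family] at hf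
      rcases hf with hf | ⟨i, hi⟩
      · exact Or.inl (mem_singleton.1 (hP hf))
      · exact Or.inr ⟨i, hi.symm⟩
    have ha1 : ∀ i, 1 ≤ a i := fun i => (mem_Icc.1 (Fintype.mem_piFinset.1 ha i)).1
    have hge2 : ∀ f ∈ H, ∀ n : ℕ, n0 ≤ n → 2 ≤ f.eval (n : ℤ) := by
      intro f hf n hn
      rcases hmem f hf with rfl | ⟨i, rfl⟩
      · rw [eval_X]
        omega
      · rw [eval_add, eval_C]
        have g1 := (hpos i).1 n hn
        have g2 := ha1 i
        omega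
    have hmono : ∀ f ∈ H, ∀ n n' : ℕ, n0 ≤ n → n ≤ n' → f.eval (n : ℤ) ≤ f.eval (n' : ℤ) := by
      intro f hf n n' hn hnn
      rcases hmem f hf with rfl | ⟨i, rfl⟩
      · rw [eval_X, eval_X]
        exact_mod_cast hnn
      · rw [eval_add, eval_C, eval_add, eval_C]
        have g1 := (hpos i).2 n n' hn hnn
        omega
    obtain ⟨Sg, hSg⟩ : ∃ Sg, Sg = eulerProd H z := ⟨_, rfl⟩
    rw [← hH, ← hSg] at hT hs0 hs1 hs2
    have hunw := unw H n0 (by omega) hge2 hmono Sg _ hs0 x hT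
    have h2c : (2 : ℝ) ^ H.card ≤ 2 ^ (k + 1) := pow_le_pow_right₀ (by norm_num) hcard'
    have herr : 2 * 2 ^ H.card * (x / L ^ (U' + 1)) + n0 + Sg * (n0 * 2 ^ H.card) ≤ x / L ^ U' := by
      have e1 : (x : ℝ) / L ^ U' = L * (x / L ^ (U' + 1)) := by
        rw [pow_succ]
        field_simp
      have e2 : 0 < (x : ℝ) / L ^ (U' + 1) := by positivity
      have t1 : 2 * 2 ^ H.card * (x / L ^ (U' + 1)) ≤ (1 / 2) * (x / L ^ U') := by
        rw [e1]
        have e3 : 2 * (2 : ℝ) ^ H.card ≤ (1 / 2) * L := by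
          calc 2 * (2 : ℝ) ^ H.card ≤ 2 * 2 ^ (k + 1) := by linarith
            _ = (1 / 2) * 2 ^ (k + 3) := by ring
            _ ≤ (1 / 2) * L := by linarith
        calc 2 * 2 ^ H.card * (x / L ^ (U' + 1)) ≤ ((1 / 2) * L) * (x / L ^ (U' + 1)) := mul_le_mul_of_nonneg_right e3 e2.le
          _ = _ := by ring
      have t2 : (n0 : ℝ) + Sg * (n0 * 2 ^ H.card) ≤ (1 / 2) * (x / L ^ U') := by
        have hLk1 : 1 ≤ L ^ (k + 1) := one_le_pow₀ hL1
        have e3 : (n0 : ℝ) + Sg * (n0 * 2 ^ H.card) ≤ 2 * n0 * 2 ^ (k + 1) * L ^ (k + 1) := by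
          have e4 : Sg * (n0 * 2 ^ H.card) ≤ L ^ (k + 1) * (n0 * 2 ^ (k + 1)) :=
            mul_le_mul hs1 (mul_le_mul_of_nonneg_left h2c hn0r) (by positivity) (by positivity)
          have e5 : (n0 : ℝ) ≤ L ^ (k + 1) * (n0 * 2 ^ (k + 1)) := by
            have e6 : (1 : ℝ) ≤ 2 ^ (k + 1) := one_le_pow₀ (by norm_num)
            have e7 : 1 ≤ L ^ (k + 1) * 2 ^ (k + 1) := by nlinarith
            nlinarith
          linarith
        refine e3.trans ?_
        rw [← mul_div_assoc, le_div_iff₀ (by positivity)]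
        have e8 : 2 * n0 * 2 ^ (k + 1) * L ^ (k + 1) * L ^ U' = (2 * n0 * 2 ^ (k + 1)) * L ^ (k + 1 + U') := by
          rw [pow_add]; ring
        rw [e8]
        have e9 : 0 ≤ L ^ (k + 1 + U') := by positivity
        nlinarith
      linarith
    have hmain : ∀ y : ℕ, y ≤ x → |(primeCount H y : ℝ) - Sg * logSum H y| ≤ x / L ^ U' :=
      fun y hy => (hunw y hy).trans herr
    unfold Good
    rw [← hH, ← hSg, ← hL]
    refine ⟨hcard, fun y hy => ?_, fun hfix y hy1 hy2 => ?_⟩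
    · refine (hmain y hy).trans ?_
      apply div_le_div_of_nonneg_left hx0.le (by positivity)
      exact pow_le_pow_right₀ hL1 (by omega)
    · have hSne : Sg ≠ 0 := by
        rw [hSg]
        exact euler_ne_zero H z hfix
      have hSlow := hs2 hSne
      refine (hmain y hy2).trans ?_
      -- lower bound for the main term
      have hls : (x : ℝ) / (2 * L ^ U) * (1 / (((D : ℝ) + 1) * L) ^ (k + 1)) ≤ logSum H y := by
        unfold logSum
        have hsub : Icc n0 y ⊆ (Icc 1 y).filter (fun n : ℕ => ∀ f ∈ H, 2 ≤ |f.eval (n : ℤ)|) := by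
          intro n hn
          rw [mem_Icc] at hn
          rw [mem_filter, mem_Icc]
          exact ⟨⟨by omega, hn.2⟩, fun f hf => (hge2 f hf n hn.1).trans (le_abs_self _)⟩
        have g0 : ∑ n ∈ Icc n0 y, gH H n ≤ ∑ n ∈ (Icc 1 y).filter (fun n : ℕ => ∀ f ∈ H, 2 ≤ |f.eval (n : ℤ)|),
            1 / ∏ f ∈ H, Real.log |((f.eval (n : ℤ) : ℤ) : ℝ)| := by
          apply sum_le_sum_of_subset_of_nonneg hsub
          intro n hn _
          exact (gH_nonneg H n (mem_filter.1 hn).2).1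
        have g1 : ∀ n ∈ Icc n0 y, 1 / (((D : ℝ) + 1) * L) ^ (k + 1) ≤ gH H n := by
          intro n hn
          rw [mem_Icc] at hn
          unfold gH
          have hD1L : 1 ≤ ((D : ℝ) + 1) * L := by
            have : (0 : ℝ) ≤ D := Nat.cast_nonneg _
            nlinarith
          apply one_div_le_one_div_of_le
          · apply prod_pos
            intro f hf
            have := log_abs_ge _ ((hge2 f hf n hn.1).trans (le_abs_self _))
            linarith
          · calc ∏ f ∈ H, Real.log |((f.eval (n : ℤ) : ℤ) : ℝ)| ≤ ∏ _f ∈ H, (((D : ℝ) + 1) * L) := by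
                  apply prod_le_prod
                  · intro f hf
                    have := log_abs_ge _ ((hge2 f hf n hn.1).trans (le_abs_self _))
                    linarith
                  · intro f hf
                    exact k1 a ha n (mem_Icc.2 ⟨by omega, hn.2.trans hy2⟩) f (by rw [← hH]; exact hf) (hge2 f hf n hn.1)
              _ = (((D : ℝ) + 1) * L) ^ H.card := by rw [prod_const]
              _ ≤ (((D : ℝ) + 1) * L) ^ (k + 1) := pow_le_pow_right₀ hD1L hcard'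
        have g2 : ((Icc n0 y).card : ℝ) * (1 / (((D : ℝ) + 1) * L) ^ (k + 1)) ≤ ∑ n ∈ Icc n0 y, gH H n := by
          rw [← nsmul_eq_mul, ← sum_const]
          exact sum_le_sum g1
        have g3 : (x : ℝ) / (2 * L ^ U) ≤ ((Icc n0 y).card : ℝ) := by
          rw [Nat.card_Icc]
          have g4 : (y : ℝ) ≤ ((y + 1 - n0 : ℕ) : ℝ) + n0 := by
            have : y ≤ (y + 1 - n0) + n0 := by omega
            exact_mod_cast this
          have g5 : (n0 : ℝ) ≤ x / (2 * L ^ U) := by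
            rw [le_div_iff₀ (by positivity)]
            have g6 : L ^ U ≤ L ^ (k + 1 + U') := pow_le_pow_right₀ hL1 (by omega)
            have g7 : (1 : ℝ) ≤ 2 ^ (k + 1) := one_le_pow₀ (by norm_num)
            have g8 : 0 ≤ L ^ (k + 1 + U') := by positivity
            calc (n0 : ℝ) * (2 * L ^ U) ≤ n0 * (2 * L ^ (k + 1 + U')) := by
                  apply mul_le_mul_of_nonneg_left _ hn0r
                  linarith
              _ = (2 * n0 * 1) * L ^ (k + 1 + U') := by ring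
              _ ≤ (4 * n0 * 2 ^ (k + 1) + 4) * L ^ (k + 1 + U') := by
                  apply mul_le_mul_of_nonneg_right _ g8
                  nlinarith
              _ ≤ x := k4.trans hss
          have g9 : (x : ℝ) / L ^ U = x / (2 * L ^ U) + x / (2 * L ^ U) := by
            field_simp
            ring
          linarith
        refine le_trans ?_ (g2.trans g0)
        apply mul_le_mul_of_nonneg_right g3 (by positivity)
      rw [le_div_iff₀ (by positivity)]
      have hml : c0 / L ^ m * ((x : ℝ) / (2 * L ^ U) * (1 / (((D : ℝ) + 1) * L) ^ (k + 1))) ≤ Sg * logSum H y :=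
        mul_le_mul hSlow hls (by positivity) hs0
      refine le_trans ?_ hml
      have e1 : (x : ℝ) / L ^ U' * L ^ U = x / L ^ (U + m + k + 2) := by
        have : L ^ U' = L ^ (U + m + k + 2) * L ^ U := by rw [← pow_add]; congr 1; omega
        rw [this]
        field_simp
      have e2 : c0 / L ^ m * ((x : ℝ) / (2 * L ^ U) * (1 / (((D : ℝ) + 1) * L) ^ (k + 1))) =
          (c0 * L / (2 * ((D : ℝ) + 1) ^ (k + 1))) * (x / L ^ (U + m + k + 2)) := by
        have : L ^ (U + m + k + 2) = L ^ m * L ^ U * L ^ (k + 1) * L := by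
          rw [← pow_add, ← pow_add, ← pow_succ]; congr 1; ring
        rw [this, mul_pow]
        field_simp
      rw [e1, e2]
      apply le_mul_of_one_le_left (by positivity)
      rw [one_le_div (by positivity)]
      exact hLD

end Pool.Agent.N791.CT
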