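import Mathlib
import Pool.Agent.N791.CT.D
import Pool.Agent.R460.SC.Fa

set_option autoImplicit false

/-! The full product for polynomials of degree at most two: tools. -/

namespace Pool.Agent.N791.CT
open Finset Polynomial Filter Topology
open Pool.Agent.H373R2.T7
open Pool.Agent.W468.ConjF (SJ PJ PJ_le PJ_tendsto PJ_pos)

lemma log_low (t : ℝ) (h0 : 0 ≤ t) (h : t ≤ 1 / 2) : -t - 2 * t ^ 2 ≤ Real.log (1 - t) := by
  have h1 : 0 < 1 - t := by linarith
  have h2 := Real.one_sub_inv_le_log_of_pos h1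
  refine le_trans ?_ h2
  have h3 : (1 - t)⁻¹ ≤ 1 + t + 2 * t ^ 2 := by
    rw [inv_le_iff_one_le_mul₀ h1]
    nlinarith [mul_nonneg h0 h0, mul_nonneg (mul_nonneg h0 h0) h0]
  linarith

/-- the logarithm of a ratio of a linear form and a product -/
lemma log_ratio {ι : Type*} (s : Finset ι) (x : ι → ℝ) (hx : ∀ i ∈ s, 0 ≤ x i) (h2 : ∑ i ∈ s, x i ≤ 1 / 2) (w : ℝ)
    (hw0 : 0 ≤ w) (hwt : w ≤ ∑ i ∈ s, x i) :
    0 < ∏ i ∈ s, (1 - x i) ∧ 0 < 1 - w ∧ |Real.log ((1 - w) / ∏ i ∈ s, (1 - x i))| ≤ 2 * ∑ i ∈ s, x i ∧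
      (w = ∑ i ∈ s, x i → |Real.log ((1 - w) / ∏ i ∈ s, (1 - x i))| ≤ 2 * (∑ i ∈ s, x i) ^ 2) := by
  classical
  obtain ⟨t, ht⟩ : ∃ t, t = ∑ i ∈ s, x i := ⟨_, rfl⟩
  rw [← ht] at h2 hwt ⊢
  have ht0 : 0 ≤ t := by rw [ht]; exact sum_nonneg hx
  have hlow : ∀ s' ⊆ s, 1 - ∑ i ∈ s', x i ≤ ∏ i ∈ s', (1 - x i) := by
    intro s'
    induction s' using Finset.induction_on with
    | empty => intro _; simp
    | insert a s' ha ih =>
      intro hs
      rw [sum_insert ha, prod_insert ha]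
      have h3 := ih ((subset_insert _ _).trans hs)
      have h4 := hx a (hs (mem_insert_self _ _))
      have h5 : ∑ i ∈ s', x i ≤ t := by
        rw [ht]
        exact sum_le_sum_of_subset_of_nonneg ((subset_insert _ _).trans hs) (fun i hi _ => hx i hi)
      have h6 : x a ≤ t := by
        rw [ht]
        exact single_le_sum hx (hs (mem_insert_self _ _))
      have h7 : 0 ≤ ∑ i ∈ s', x i := sum_nonneg fun i hi => hx i ((subset_insert _ _).trans hs hi)
      nlinarith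
  have hup : ∏ i ∈ s, (1 - x i) ≤ Real.exp (-t) := by
    rw [ht, ← sum_neg_distrib, Real.exp_sum]
    apply Finset.prod_le_prod
    · intro i hi
      have h6 : x i ≤ t := by
        rw [ht]
        exact single_le_sum hx hi
      linarith
    · intro i _
      have := Real.add_one_le_exp (-(x i))
      linarith
  have hQ := hlow s subset_rfl
  rw [← ht] at hQ
  have hQ0 : 0 < ∏ i ∈ s, (1 - x i) := by linarith
  have hw1 : 0 < 1 - w := by linarith
  have hlq1 : Real.log (1 - t) ≤ Real.log (∏ i ∈ s, (1 - x i)) := Real.log_le_log (by linarith) hQ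
  have hlq2 : Real.log (∏ i ∈ s, (1 - x i)) ≤ -t := by
    have := Real.log_le_log hQ0 hup
    rwa [Real.log_exp] at this
  have hl := log_low t ht0 h2
  have hlw1 : Real.log (1 - t) ≤ Real.log (1 - w) := Real.log_le_log (by linarith) (by linarith)
  have hlw2 : Real.log (1 - w) ≤ -w := by
    have := Real.log_le_sub_one_of_pos hw1
    linarith
  refine ⟨hQ0, hw1, ?_, ?_⟩
  · rw [Real.log_div hw1.ne' hQ0.ne', abs_le]
    constructor <;> nlinarith
  · intro hwt'
    rw [Real.log_div hw1.ne' hQ0.ne', abs_le]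
    constructor <;> nlinarith

/-- convergence of a sum with few large terms -/
lemma tail_sum (t : ℕ → ℝ) (z : ℕ) (hz : 1 ≤ z) (K K' : ℝ) (hK : 0 ≤ K) (hK' : 0 ≤ K') (S : Finset ℕ)
    (h : ∀ n, z < n → |t n| ≤ K / (n : ℝ) ^ 2 + if n ∈ S then K' else 0) :
    ∃ l : ℝ, Tendsto (fun N => ∑ n ∈ Ioc z N, t n) atTop (𝓝 l) ∧ |l| ≤ K / z + S.card * K' := by
  classical
  have hb : ∀ N, |∑ n ∈ Ioc z N, t n| ≤ K / z + S.card * K' := by
    intro N
    refine (abs_sum_le_sum_abs _ _).trans ?_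
    refine (sum_le_sum fun n hn => h n (mem_Ioc.1 hn).1).trans ?_
    rw [sum_add_distrib]
    apply add_le_add
    · rcases Nat.lt_or_ge N z with hN | hN
      · rw [Ioc_eq_empty (by omega), sum_empty]
        positivity
      · have h1 := sum_Ioc_inv_sq_le_sub (α := ℝ) (k := z) (n := N) (by omega) hN
        have h2 : ∑ n ∈ Ioc z N, K / (n : ℝ) ^ 2 = K * ∑ n ∈ Ioc z N, ((n : ℝ) ^ 2)⁻¹ := by
          rw [mul_sum]
          apply sum_congr rfl
          intro n _
          rw [div_eq_mul_inv]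
        rw [h2, div_eq_mul_inv]
        apply mul_le_mul_of_nonneg_left _ hK
        have h3 : (0 : ℝ) ≤ (N : ℝ)⁻¹ := by positivity
        linarith
    · rw [← sum_filter, sum_const, nsmul_eq_mul]
      apply mul_le_mul_of_nonneg_right _ hK'
      have : ((Ioc z N).filter (fun n => n ∈ S)).card ≤ S.card := by
        apply card_le_card
        intro n hn
        exact (mem_filter.1 hn).2
      exact_mod_cast this
  have hsum : Summable (fun n : ℕ => if z < n then t n else 0) := by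
    apply Summable.of_norm_bounded (g := fun n : ℕ => K * (1 / (n : ℝ) ^ 2) + if n ∈ S then K' else 0)
    · apply Summable.add
      · exact (Real.summable_one_div_nat_pow.2 (by norm_num)).mul_left K
      · apply summable_of_ne_finset_zero (s := S)
        intro n hn
        rw [if_neg hn]
    · intro n
      rw [Real.norm_eq_abs]
      split_ifs with h1 h2 h2
      · have := h n h1
        rw [if_pos h2] at this
        rw [mul_one_div]
        exact this
      · have := h n h1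
        rw [if_neg h2] at this
        rw [mul_one_div]
        exact this
      · rw [abs_zero]
        positivity
      · rw [abs_zero]
        positivity
  have hT := hsum.hasSum.tendsto_sum_nat
  have heq : (fun N => ∑ n ∈ Ioc z N, t n) = fun N => ∑ n ∈ range (N + 1), (if z < n then t n else 0) := by
    funext N
    rw [← sum_filter]
    apply sum_congr _ (fun _ _ => rfl)
    ext n
    rw [mem_Ioc, mem_filter, mem_range]
    omega
  have hT2 : Tendsto (fun N => ∑ n ∈ Ioc z N, t n) atTop (𝓝 (∑' n : ℕ, (if z < n then t n else 0))) := by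
    rw [heq]
    exact hT.comp (tendsto_add_atTop_nat 1)
  refine ⟨_, hT2, ?_⟩
  have hT3 := hT2.abs
  exact le_of_tendsto hT3 (Eventually.of_forall hb)

/-- the number of the zeros modulo `p` -/
def rt (f : ℤ[X]) (p : ℕ) : ℕ := ((range p).filter (fun r : ℕ => (p : ℤ) ∣ f.eval (r : ℤ))).card

/-- the discriminant -/
noncomputable def DD (f : ℤ[X]) : ℤ := f.coeff 1 ^ 2 - 4 * f.coeff 2 * f.coeff 0

/-- the values -/
lemma eval_two (f : ℤ[X]) (hf : f.natDegree ≤ 2) (n : ℤ) : f.eval n = f.coeff 2 * n ^ 2 + f.coeff 1 * n + f.coeff 0 := by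
  rw [eval_eq_sum_range' (show f.natDegree < 3 by omega)]
  rw [sum_range_succ, sum_range_succ, sum_range_one]
  ring

/-- a polynomial of degree one or two with small leading coefficient -/
def Nice (z : ℕ) (f : ℤ[X]) : Prop :=
  f.natDegree ≤ 2 ∧ (f.coeff 2 = 0 → f.coeff 1 ≠ 0 ∧ (f.coeff 1).natAbs ≤ z) ∧ (f.coeff 2).natAbs ≤ z

lemma ndvd_small {m : ℤ} (hm : m ≠ 0) {z p : ℕ} (hmz : m.natAbs ≤ z) (hp : z < p) : ¬ (p : ℤ) ∣ m := by
  intro h
  have := Nat.le_of_dvd (Int.natAbs_pos.2 hm) (Int.natCast_dvd.1 h)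
  omega

lemma rt_lin (f : ℤ[X]) (z : ℕ) (hf : Nice z f) (h2 : f.coeff 2 = 0) (p : ℕ) (hp : p.Prime) (hzp : z < p) : rt f p = 1 := by
  classical
  obtain ⟨h0, h1, _⟩ := hf
  obtain ⟨h3, h4⟩ := h1 h2
  have hnd := ndvd_small h3 h4 hzp
  have : Fact p.Prime := ⟨hp⟩
  have hβ : (f.coeff 1 : ZMod p) ≠ 0 := by
    intro h
    exact hnd ((ZMod.intCast_zmod_eq_zero_iff_dvd _ _).1 h)
  unfold rt
  rw [card_eq_one]
  refine ⟨(-(f.coeff 0 : ZMod p) / (f.coeff 1 : ZMod p)).val, ?_⟩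
  ext r
  rw [mem_filter, mem_range, mem_singleton, eval_two f h0, h2]
  rw [← ZMod.intCast_zmod_eq_zero_iff_dvd]
  push_cast
  constructor
  · rintro ⟨hr, h⟩
    have h5 : (r : ZMod p) = -(f.coeff 0 : ZMod p) / (f.coeff 1 : ZMod p) := by
      field_simp
      linear_combination h
    rw [← h5, ZMod.val_natCast, Nat.mod_eq_of_lt hr]
  · intro h
    refine ⟨by rw [h]; exact ZMod.val_lt _, ?_⟩
    have h5 : (r : ZMod p) = -(f.coeff 0 : ZMod p) / (f.coeff 1 : ZMod p) := by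
      rw [h, ZMod.natCast_zmod_val]
    rw [h5]
    field_simp
    ring

lemma rt_quad (f : ℤ[X]) (z : ℕ) (hz : 2 ≤ z) (hf : Nice z f) (h2 : f.coeff 2 ≠ 0) (p : ℕ) (hp : p.Prime) (hzp : z < p) :
    (rt f p : ℤ) = 1 + jacobiSym (DD f) p := by
  classical
  obtain ⟨h0, _, h1⟩ := hf
  have hnd := ndvd_small h2 h1 hzp
  have h3 := Pool.Agent.R460.SB.nu_leg (-(f.coeff 2)) (-(f.coeff 1)) (f.coeff 0) hp (by omega) (by rwa [dvd_neg])
  have h4 : 4 * -(f.coeff 2) * f.coeff 0 + (-(f.coeff 1)) ^ 2 = DD f := by unfold DD; ring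
  rw [h4] at h3
  rw [← h3]
  congr 1
  unfold rt nuB Pool.Agent.R460.SB.QS
  congr 1
  ext r
  simp only [mem_filter]
  have e : f.coeff 0 - (-(f.coeff 2) * (r : ℤ) ^ 2 + -(f.coeff 1) * (r : ℤ)) = f.eval (r : ℤ) := by
    rw [eval_two f h0]
    ring
  rw [e]

lemma rt_le_two (f : ℤ[X]) (z : ℕ) (hz : 2 ≤ z) (hf : Nice z f) (p : ℕ) (hp : p.Prime) (hzp : z < p) : rt f p ≤ 2 := by
  by_cases h2 : f.coeff 2 = 0
  · rw [rt_lin f z hf h2 p hp hzp]
    omega
  · have h3 := rt_quad f z hz hf h2 p hp hzp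
    have h4 := jacobiSym.trichotomy (DD f) p
    omega

/-- the product of the local factors of one polynomial -/
noncomputable def PF (f : ℤ[X]) (z N : ℕ) : ℝ := ∏ p ∈ (Ioc z N).filter Nat.Prime, (1 - (rt f p : ℝ) / p) / (1 - 1 / (p : ℝ))

lemma PF_lin (f : ℤ[X]) (z N : ℕ) (hz : 2 ≤ z) (hf : Nice z f) (h2 : f.coeff 2 = 0) : PF f z N = 1 := by
  unfold PF
  apply prod_eq_one
  intro p hp
  rw [mem_filter, mem_Ioc] at hp
  rw [rt_lin f z hf h2 p hp.2 hp.1.1]
  have hp1 : (1 : ℝ) < p := by exact_mod_cast hp.2.one_lt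
  have : 1 - 1 / (p : ℝ) ≠ 0 := by
    have : 1 / (p : ℝ) < 1 := by rw [div_lt_one (by linarith)]; exact hp1
    linarith
  rw [Nat.cast_one, div_self this]

lemma PF_quad (f : ℤ[X]) (z N : ℕ) (hz : 2 ≤ z) (hf : Nice z f) (h2 : f.coeff 2 ≠ 0) : PF f z N = PJ (DD f) z N := by
  unfold PF PJ
  apply prod_congr rfl
  intro p hp
  rw [mem_filter, mem_Ioc] at hp
  have h3 := rt_quad f z hz hf h2 p hp.2 hp.1.1
  have h4 : (rt f p : ℝ) = 1 + (jacobiSym (DD f) p : ℝ) := by exact_mod_cast h3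
  have hp1 : (1 : ℝ) < p := by exact_mod_cast hp.2.one_lt
  have h5 : (p : ℝ) ≠ 0 := by linarith
  have h6 : (p : ℝ) - 1 ≠ 0 := by
    have : (0 : ℝ) < p - 1 := by linarith
    exact this.ne'
  rw [h4]
  field_simp
  ring

/-- a number which is divisible by the primes modulo which two polynomials have a common zero -/
noncomputable def RR (f g : ℤ[X]) : ℤ :=
  if f.coeff 2 = 0 ∧ g.coeff 2 = 0 then f.coeff 1 * g.coeff 0 - g.coeff 1 * f.coeff 0
  else (f.coeff 2 * g.coeff 0 - g.coeff 2 * f.coeff 0) ^ 2 -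
    (f.coeff 2 * g.coeff 1 - g.coeff 2 * f.coeff 1) * (f.coeff 1 * g.coeff 0 - g.coeff 1 * f.coeff 0)

lemma dvd_RR (f g : ℤ[X]) (hf : f.natDegree ≤ 2) (hg : g.natDegree ≤ 2) (p n : ℤ) (h1 : p ∣ f.eval n) (h2 : p ∣ g.eval n) :
    p ∣ RR f g := by
  rw [eval_two f hf] at h1
  rw [eval_two g hg] at h2
  unfold RR
  split_ifs with h
  · rw [h.1] at h1
    rw [h.2] at h2
    have h3 := dvd_sub (h2.mul_left (f.coeff 1)) (h1.mul_left (g.coeff 1))
    have e : f.coeff 1 * (0 * n ^ 2 + g.coeff 1 * n + g.coeff 0) - g.coeff 1 * (0 * n ^ 2 + f.coeff 1 * n + f.coeff 0) =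
      f.coeff 1 * g.coeff 0 - g.coeff 1 * f.coeff 0 := by ring
    rwa [e] at h3
  · obtain ⟨u, hu⟩ := h1
    obtain ⟨v, hv⟩ := h2
    -- A n + B ≡ 0, C ≡ A n²
    refine ⟨(f.coeff 2 * v - g.coeff 2 * u) * ((f.coeff 2 * g.coeff 0 - g.coeff 2 * f.coeff 0) -
      (f.coeff 2 * g.coeff 1 - g.coeff 2 * f.coeff 1) * n) +
      (f.coeff 2 * g.coeff 1 - g.coeff 2 * f.coeff 1) * (g.coeff 1 * u - f.coeff 1 * v), ?_⟩
    have e1 : f.coeff 2 * g.coeff 0 - g.coeff 2 * f.coeff 0 =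
        p * (f.coeff 2 * v - g.coeff 2 * u) - (f.coeff 2 * g.coeff 1 - g.coeff 2 * f.coeff 1) * n := by
      linear_combination f.coeff 2 * hv - g.coeff 2 * hu
    have e2 : f.coeff 1 * g.coeff 0 - g.coeff 1 * f.coeff 0 =
        (f.coeff 2 * g.coeff 1 - g.coeff 2 * f.coeff 1) * n ^ 2 + p * (f.coeff 1 * v - g.coeff 1 * u) := by
      linear_combination f.coeff 1 * hv - g.coeff 1 * hu
    rw [e2]
    linear_combination ((f.coeff 2 * g.coeff 0 - g.coeff 2 * f.coeff 0) - (f.coeff 2 * g.coeff 1 - g.coeff 2 * f.coeff 1) * n) * e1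

end Pool.Agent.N791.CT
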