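import Mathlib
import Pool.Agent.N791.CT.F

set_option autoImplicit false

/-! The full product for polynomials of degree at most two: the tail. -/

namespace Pool.Agent.N791.CT
open Finset Polynomial Filter Topology
open Pool.Agent.H373R2.T7
open Pool.Agent.W468.ConjF (SJ PJ PJ_le PJ_tendsto PJ_pos)

lemma omega_le (H : Finset ℤ[X]) (p : ℕ) (hp : p.Prime) : omega H p ≤ ∑ f ∈ H, rt f p := by
  classical
  rw [omega_range H p hp.one_le]
  have h1 : (range p).filter (fun n : ℕ => (p : ℤ) ∣ ∏ f ∈ H, f.eval (n : ℤ)) ⊆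
      H.biUnion (fun f => (range p).filter (fun r : ℕ => (p : ℤ) ∣ f.eval (r : ℤ))) := by
    intro n hn
    rw [mem_filter, Prime.dvd_finsetProd_iff (Nat.prime_iff_prime_int.1 hp)] at hn
    obtain ⟨hn1, f, hf, hfn⟩ := hn
    rw [mem_biUnion]
    exact ⟨f, hf, mem_filter.2 ⟨hn1, hfn⟩⟩
  exact (card_le_card h1).trans card_biUnion_le

lemma omega_eq_sum (H : Finset ℤ[X]) (hH : ∀ f ∈ H, f.natDegree ≤ 2) (p : ℕ) (hp : p.Prime)
    (h : ∀ f ∈ H, ∀ g ∈ H, f ≠ g → ¬ (p : ℤ) ∣ RR f g) : omega H p = ∑ f ∈ H, rt f p := by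
  classical
  rw [omega_range H p hp.one_le]
  have h1 : (range p).filter (fun n : ℕ => (p : ℤ) ∣ ∏ f ∈ H, f.eval (n : ℤ)) =
      H.biUnion (fun f => (range p).filter (fun r : ℕ => (p : ℤ) ∣ f.eval (r : ℤ))) := by
    ext n
    rw [mem_filter, Prime.dvd_finsetProd_iff (Nat.prime_iff_prime_int.1 hp), mem_biUnion]
    constructor
    · rintro ⟨hn1, f, hf, hfn⟩
      exact ⟨f, hf, mem_filter.2 ⟨hn1, hfn⟩⟩
    · rintro ⟨f, hf, hfn⟩
      rw [mem_filter] at hfn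
      exact ⟨hfn.1, f, hf, hfn.2⟩
  rw [h1, card_biUnion]
  · rfl
  · intro f hf g hg hfg
    simp only [Function.onFun]
    rw [disjoint_left]
    intro n hn hn'
    rw [mem_filter] at hn hn'
    exact h f hf g hg hfg (dvd_RR f g (hH f hf) (hH g hg) p n hn.2 hn'.2)

/-- the number of the prime factors -/
lemma two_pow_card_le (m : ℕ) (hm : m ≠ 0) : 2 ^ m.primeFactors.card ≤ m := by
  have h1 : ∏ p ∈ m.primeFactors, p ≤ m := Nat.le_of_dvd (Nat.pos_of_ne_zero hm) (Nat.prod_primeFactors_dvd m)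
  refine le_trans ?_ h1
  rw [← prod_const]
  exact prod_le_prod' fun p hp => (Nat.prime_of_mem_primeFactors hp).two_le

lemma card_primeFactors_le (m : ℕ) (hm : m ≠ 0) (M : ℝ) (hM : (m : ℝ) ≤ M) : (m.primeFactors.card : ℝ) ≤ 2 * Real.log M := by
  have h1 := two_pow_card_le m hm
  have h2 : (2 : ℝ) ^ m.primeFactors.card ≤ M := by
    refine le_trans ?_ hM
    exact_mod_cast h1
  have h3 := Real.log_le_log (by positivity) h2
  rw [Real.log_pow] at h3
  have h4 := Real.log_two_gt_d9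
  have h5 : (0 : ℝ) ≤ m.primeFactors.card := Nat.cast_nonneg _
  nlinarith

/-- products of numbers close to one -/
lemma prod_close {ι : Type*} (s : Finset ι) (y : ι → ℝ) (η : ℝ) (hη0 : 0 ≤ η) (hη1 : η ≤ 1) (h : ∀ i ∈ s, |y i - 1| ≤ η) :
    |∏ i ∈ s, y i - 1| ≤ (2 ^ s.card - 1) * η := by
  classical
  induction s using Finset.induction_on with
  | empty => simp
  | insert a s ha ih =>
    rw [prod_insert ha, card_insert_of_notMem ha]
    have h1 := ih (fun i hi => h i (mem_insert_of_mem hi))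
    have h2 := h a (mem_insert_self _ _)
    have e : y a * ∏ i ∈ s, y i - 1 = y a * (∏ i ∈ s, y i - 1) + (y a - 1) := by ring
    rw [e]
    refine (abs_add_le _ _).trans ?_
    rw [abs_mul]
    have h3 : |y a| ≤ 2 := by
      rw [abs_le] at h2 ⊢
      constructor <;> linarith
    have h4 : |y a| * |∏ i ∈ s, y i - 1| ≤ 2 * ((2 ^ s.card - 1) * η) :=
      mul_le_mul h3 h1 (abs_nonneg _) (by norm_num)
    rw [pow_succ]
    linarith

open Classical in
/-- the logarithm of the correction -/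
noncomputable def tt (H : Finset ℤ[X]) (n : ℕ) : ℝ :=
  if n.Prime then Real.log ((1 - (omega H n : ℝ) / n) / ∏ f ∈ H, (1 - (rt f n : ℝ) / n)) else 0

lemma tt_bd (H : Finset ℤ[X]) (z : ℕ) (hz : 2 ≤ z) (hzh : 4 * H.card ≤ z) (hnice : ∀ f ∈ H, Nice z f) (p : ℕ) (hp : p.Prime)
    (hzp : z < p) : 0 < ∏ f ∈ H, (1 - (rt f p : ℝ) / p) ∧ 0 < 1 - (omega H p : ℝ) / p ∧
      |tt H p| ≤ 4 * H.card / z ∧
      ((∀ f ∈ H, ∀ g ∈ H, f ≠ g → ¬ (p : ℤ) ∣ RR f g) → |tt H p| ≤ 8 * (H.card : ℝ) ^ 2 / (p : ℝ) ^ 2) := by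
  classical
  have hp0 : (0 : ℝ) < p := by exact_mod_cast hp.pos
  have hz0 : (0 : ℝ) < z := by exact_mod_cast (by omega : 0 < z)
  have hzpr : (z : ℝ) < p := by exact_mod_cast hzp
  have hc0 : (0 : ℝ) ≤ H.card := Nat.cast_nonneg _
  have hzhr : 4 * (H.card : ℝ) ≤ z := by exact_mod_cast hzh
  have hs : ∑ f ∈ H, (rt f p : ℝ) / p = ((∑ f ∈ H, rt f p : ℕ) : ℝ) / p := by
    rw [← sum_div]
    push_cast
    rfl
  have hrt : ((∑ f ∈ H, rt f p : ℕ) : ℝ) ≤ 2 * H.card := by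
    have : ∑ f ∈ H, rt f p ≤ ∑ _f ∈ H, 2 := sum_le_sum fun f hf => rt_le_two f z hz (hnice f hf) p hp hzp
    rw [sum_const, smul_eq_mul, mul_comm] at this
    exact_mod_cast this
  have hs1 : ∑ f ∈ H, (rt f p : ℝ) / p ≤ 2 * H.card / p := by
    rw [hs]
    exact div_le_div_of_nonneg_right hrt hp0.le
  have hs2 : 2 * (H.card : ℝ) / p ≤ 1 / 2 := by
    rw [div_le_div_iff₀ hp0 (by norm_num)]
    linarith
  have hs0 : 0 ≤ ∑ f ∈ H, (rt f p : ℝ) / p := sum_nonneg fun f _ => by positivity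
  have hw0 : 0 ≤ (omega H p : ℝ) / p := by positivity
  have hw1 : (omega H p : ℝ) / p ≤ ∑ f ∈ H, (rt f p : ℝ) / p := by
    rw [hs]
    apply div_le_div_of_nonneg_right _ hp0.le
    exact_mod_cast omega_le H p hp
  obtain ⟨g1, g2, g3, g4⟩ := log_ratio H (fun f => (rt f p : ℝ) / p) (fun f _ => by positivity) (hs1.trans hs2) _ hw0 hw1
  refine ⟨g1, g2, ?_, fun hno => ?_⟩
  · unfold tt
    rw [if_pos hp]
    refine g3.trans ?_
    calc 2 * ∑ f ∈ H, (rt f p : ℝ) / p ≤ 2 * (2 * H.card / p) := by linarith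
      _ = 4 * H.card / p := by ring
      _ ≤ 4 * H.card / z := div_le_div_of_nonneg_left (by positivity) hz0 hzpr.le
  · unfold tt
    rw [if_pos hp]
    have h5 : (omega H p : ℝ) / p = ∑ f ∈ H, (rt f p : ℝ) / p := by
      rw [hs, omega_eq_sum H (fun f hf => (hnice f hf).1) p hp hno]
    refine (g4 h5).trans ?_
    calc 2 * (∑ f ∈ H, (rt f p : ℝ) / p) ^ 2 ≤ 2 * (2 * H.card / p) ^ 2 := by
          apply mul_le_mul_of_nonneg_left _ (by norm_num)
          exact pow_le_pow_left₀ hs0 hs1 2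
      _ = 8 * (H.card : ℝ) ^ 2 / (p : ℝ) ^ 2 := by rw [div_pow]; ring

lemma euler_split (H : Finset ℤ[X]) (z : ℕ) (hz : 2 ≤ z) (hzh : 4 * H.card ≤ z) (hnice : ∀ f ∈ H, Nice z f) (N : ℕ) (hN : z ≤ N) :
    eulerProd H N = eulerProd H z * ((∏ f ∈ H, PF f z N) * Real.exp (∑ n ∈ Ioc z N, tt H n)) := by
  classical
  have e1 : (Icc 1 N).filter Nat.Prime = (Icc 1 z).filter Nat.Prime ∪ (Ioc z N).filter Nat.Prime := by
    ext p
    rw [mem_union, mem_filter, mem_filter, mem_filter, mem_Icc, mem_Icc, mem_Ioc]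
    constructor
    · rintro ⟨h1, h2⟩
      by_cases h3 : p ≤ z
      · exact Or.inl ⟨⟨h1.1, h3⟩, h2⟩
      · exact Or.inr ⟨⟨by omega, h1.2⟩, h2⟩
    · rintro (⟨h1, h2⟩ | ⟨h1, h2⟩)
      · exact ⟨⟨h1.1, by omega⟩, h2⟩
      · exact ⟨⟨by omega, h1.2⟩, h2⟩
  have hdis : Disjoint ((Icc 1 z).filter Nat.Prime) ((Ioc z N).filter Nat.Prime) := by
    rw [disjoint_left]
    intro p hp hp'
    rw [mem_filter, mem_Icc] at hp
    rw [mem_filter, mem_Ioc] at hp'
    omega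
  unfold eulerProd
  rw [e1, prod_union hdis]
  congr 1
  have e2 : ∑ n ∈ Ioc z N, tt H n = ∑ p ∈ (Ioc z N).filter Nat.Prime, tt H p := by
    rw [sum_filter]
    apply sum_congr rfl
    intro n _
    unfold tt
    split_ifs <;> rfl
  rw [e2, Real.exp_sum]
  unfold PF
  rw [Finset.prod_comm, ← prod_mul_distrib]
  apply prod_congr rfl
  intro p hp
  rw [mem_filter, mem_Ioc] at hp
  obtain ⟨g1, g2, _, _⟩ := tt_bd H z hz hzh hnice p hp.2 hp.1.1
  have h3 : Real.exp (tt H p) = (1 - (omega H p : ℝ) / p) / ∏ f ∈ H, (1 - (rt f p : ℝ) / p) := by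
    unfold tt
    rw [if_pos hp.2, Real.exp_log (div_pos g2 g1)]
  rw [h3, prod_div_distrib, prod_const]
  field_simp

theorem tail_lim (H : Finset ℤ[X]) (z : ℕ) (hz : 2 ≤ z) (hzh : 4 * H.card ≤ z) (hnice : ∀ f ∈ H, Nice z f)
    (M : ℝ) (hM : 1 ≤ M) (hRR : ∀ f ∈ H, ∀ g ∈ H, f ≠ g → RR f g ≠ 0 ∧ |((RR f g : ℤ) : ℝ)| ≤ M)
    (δ : ℝ) (hδ0 : 0 ≤ δ) (hδ1 : δ + 5 / z ≤ 1 / 2)
    (hSJ : ∀ f ∈ H, f.coeff 2 ≠ 0 → ¬ IsSquare (DD f) ∧ ∀ᶠ N in atTop, |SJ (DD f) z N| ≤ δ)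
    (η : ℝ) (hη1 : η ≤ 1) (hη2 : 2 * (δ + 5 / z) ≤ η)
    (hη3 : 2 * (8 * (H.card : ℝ) ^ 2 / z + (H.card : ℝ) ^ 2 * (2 * Real.log M) * (4 * H.card / z)) ≤ η) :
    ∃ Λ : ℝ, 0 < Λ ∧ |Λ - 1| ≤ 2 ^ (H.card + 1) * η ∧ Tendsto (fun N => eulerProd H N) atTop (𝓝 (eulerProd H z * Λ)) := by
  classical
  have hz0 : (0 : ℝ) < z := by exact_mod_cast (by omega : 0 < z)
  have hc0 : (0 : ℝ) ≤ H.card := Nat.cast_nonneg _
  have hlM : 0 ≤ Real.log M := Real.log_nonneg hM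
  have hη0 : 0 ≤ η := le_trans (by positivity) hη2
  -- the exceptional primes
  obtain ⟨S, hS⟩ : ∃ S : Finset ℕ, S = H.offDiag.biUnion (fun q => (RR q.1 q.2).natAbs.primeFactors) := ⟨_, rfl⟩
  have hScard : (S.card : ℝ) ≤ (H.card : ℝ) ^ 2 * (2 * Real.log M) := by
    have h1 : (S.card : ℝ) ≤ ∑ q ∈ H.offDiag, ((RR q.1 q.2).natAbs.primeFactors.card : ℝ) := by
      rw [hS]
      exact_mod_cast card_biUnion_le
    have h2 : ∀ q ∈ H.offDiag, ((RR q.1 q.2).natAbs.primeFactors.card : ℝ) ≤ 2 * Real.log M := by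
      intro q hq
      rw [mem_offDiag] at hq
      obtain ⟨h3, h4⟩ := hRR q.1 hq.1 q.2 hq.2.1 hq.2.2
      apply card_primeFactors_le _ (Int.natAbs_ne_zero.2 h3)
      rw [Nat.cast_natAbs, Int.cast_abs]
      exact h4
    refine h1.trans ((sum_le_sum h2).trans ?_)
    rw [sum_const, nsmul_eq_mul]
    apply mul_le_mul_of_nonneg_right _ (by positivity)
    have h5 : H.offDiag.card ≤ H.card ^ 2 := by
      rw [offDiag_card, sq]
      omega
    exact_mod_cast h5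
  obtain ⟨l, hl1, hl2⟩ := tail_sum (tt H) z (by omega) (8 * (H.card : ℝ) ^ 2) (4 * H.card / z) (by positivity) (by positivity) S (by
    intro n hn
    by_cases hp : n.Prime
    · obtain ⟨_, _, g3, g4⟩ := tt_bd H z hz hzh hnice n hp hn
      by_cases hnS : n ∈ S
      · rw [if_pos hnS]
        have : 0 ≤ 8 * (H.card : ℝ) ^ 2 / (n : ℝ) ^ 2 := by positivity
        linarith
      · rw [if_neg hnS, add_zero]
        apply g4
        intro f hf g hg hfg hd
        apply hnS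
        rw [hS, mem_biUnion]
        refine ⟨(f, g), mem_offDiag.2 ⟨hf, hg, hfg⟩, ?_⟩
        rw [Nat.mem_primeFactors]
        exact ⟨hp, Int.natCast_dvd.1 hd, Int.natAbs_ne_zero.2 (hRR f hf g hg hfg).1⟩
    · unfold tt
      rw [if_neg hp, abs_zero]
      split_ifs <;> positivity)
  have hl3 : |l| ≤ η / 2 := by
    refine hl2.trans ?_
    have : (S.card : ℝ) * (4 * H.card / z) ≤ (H.card : ℝ) ^ 2 * (2 * Real.log M) * (4 * H.card / z) :=
      mul_le_mul_of_nonneg_right hScard (by positivity)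
    linarith
  -- the limits of the products of the polynomials
  have hPF : ∀ f ∈ H, ∃ Lf : ℝ, 0 < Lf ∧ Tendsto (fun N => PF f z N) atTop (𝓝 Lf) ∧ |Lf - 1| ≤ η := by
    intro f hf
    by_cases h2 : f.coeff 2 = 0
    · refine ⟨1, one_pos, ?_, by rw [sub_self, abs_zero]; exact hη0⟩
      have : (fun N => PF f z N) = fun _ => (1 : ℝ) := funext fun N => PF_lin f z N hz (hnice f hf) h2
      rw [this]
      exact tendsto_const_nhds
    · obtain ⟨h3, h4⟩ := hSJ f hf h2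
      obtain ⟨Lf, g1, g2, g3⟩ := Pool.Agent.R460.SC.PJ_lim h3 hz hδ0 hδ1 h4
      refine ⟨Lf, g1, ?_, g3.trans hη2⟩
      have : (fun N => PF f z N) = fun N => PJ (DD f) z N := funext fun N => PF_quad f z N hz (hnice f hf) h2
      rw [this]
      exact g2
  choose! Lf hLf using hPF
  have hexp : |Real.exp l - 1| ≤ η := by
    have h1 : |l| ≤ 1 := by linarith
    have h2 := Real.abs_exp_sub_one_le h1
    linarith
  have hprod := prod_close H Lf η hη0 hη1 (fun f hf => (hLf f hf).2.2)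
  refine ⟨(∏ f ∈ H, Lf f) * Real.exp l, mul_pos (prod_pos fun f hf => (hLf f hf).1) (Real.exp_pos _), ?_, ?_⟩
  · have e : (∏ f ∈ H, Lf f) * Real.exp l - 1 = (∏ f ∈ H, Lf f - 1) * Real.exp l + (Real.exp l - 1) := by ring
    rw [e]
    refine (abs_add_le _ _).trans ?_
    rw [abs_mul]
    have h3 : |Real.exp l| ≤ 2 := by
      rw [abs_le] at hexp ⊢
      constructor <;> linarith
    have h4 : |∏ f ∈ H, Lf f - 1| * |Real.exp l| ≤ ((2 ^ H.card - 1) * η) * 2 :=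
      mul_le_mul hprod h3 (abs_nonneg _) ((abs_nonneg _).trans hprod)
    rw [pow_succ]
    linarith
  · have h5 : Tendsto (fun N => eulerProd H z * ((∏ f ∈ H, PF f z N) * Real.exp (∑ n ∈ Ioc z N, tt H n))) atTop
        (𝓝 (eulerProd H z * ((∏ f ∈ H, Lf f) * Real.exp l))) := by
      apply Tendsto.const_mul
      apply Tendsto.mul
      · exact tendsto_finset_prod H (fun f hf => (hLf f hf).2.1)
      · exact (Real.continuous_exp.tendsto l).comp hl1
    refine h5.congr' ?_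
    filter_upwards [eventually_ge_atTop z] with N hN
    exact (euler_split H z hz hzh hnice N hN).symm

end Pool.Agent.N791.CT
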