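import Mathlib
import Pool.Agent.N791.CT.G
import Pool.Agent.N791.CT.E
import Pool.Agent.R460.SC.Cm

set_option autoImplicit false

/-! The full product for polynomials of degree at most two: the exceptional vectors. -/

namespace Pool.Agent.N791.CT
open Finset Polynomial Filter Topology
open Pool.Agent.H373R2.T7
open Pool.Agent.W468.ConjF (SJ PJ PJ_le PJ_tendsto PJ_pos)

variable {k : ℕ}

/-- vectors such that for given other coordinates there are few possibilities for one coordinate -/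
lemma slice_n (A : Fin k → ℕ) (R : (Fin k → ℕ) → Prop) [DecidablePred R] (i : Fin k) (n : ℕ)
    (hR : ∀ b : Fin k → ℕ, ∀ s : Finset ℕ, (∀ v ∈ s, R (Function.update b i v)) → s.card ≤ n) :
    ((Fintype.piFinset (fun i => Icc 1 (A i))).filter R).card * A i ≤ n * ∏ i, A i := by
  classical
  obtain ⟨box, hbox⟩ : ∃ box, box = Fintype.piFinset (fun i => Icc 1 (A i)) := ⟨_, rfl⟩
  have h1 := slice A (fun a => a i = 1) i (fun a a' h h' _ => h.trans h'.symm)
  rw [← hbox] at h1 ⊢
  have h2 : (box.filter R).card ≤ n * (box.filter (fun a => a i = 1)).card := by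
    apply card_le_mul_card_image_of_maps_to (f := fun a => Function.update a i 1)
    · intro a ha
      rw [mem_filter] at ha ⊢
      refine ⟨?_, Function.update_self _ _ _⟩
      have ha1 := ha.1
      rw [hbox, Fintype.mem_piFinset] at ha1 ⊢
      intro l
      by_cases hl : l = i
      · subst hl
        rw [Function.update_self]
        have := ha1 l
        rw [mem_Icc] at this ⊢
        omega
      · rw [Function.update_of_ne hl]
        exact ha1 l
    · intro b _
      have hab : ∀ a, Function.update a i 1 = b → Function.update b i (a i) = a := by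
        intro a hab
        rw [← hab, Function.update_idem, Function.update_eq_self]
      have h3 : ((box.filter R).filter (fun a => Function.update a i 1 = b)).card =
          (((box.filter R).filter (fun a => Function.update a i 1 = b)).image (fun a => a i)).card := by
        rw [card_image_of_injOn]
        intro a ha a' ha' h
        rw [mem_coe, mem_filter] at ha ha'
        simp only at h
        rw [← hab a ha.2, ← hab a' ha'.2, h]
      rw [h3]
      apply hR b
      intro v hv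
      rw [mem_image] at hv
      obtain ⟨a, ha, rfl⟩ := hv
      rw [mem_filter, mem_filter] at ha
      rw [hab a ha.2]
      exact ha.1.2
  calc (box.filter R).card * A i ≤ n * (box.filter (fun a => a i = 1)).card * A i := Nat.mul_le_mul_right _ h2
    _ = n * ((box.filter (fun a => a i = 1)).card * A i) := by ring
    _ ≤ _ := Nat.mul_le_mul_left _ h1

lemma coeff_shift (f : ℤ[X]) (v : ℤ) : (f + C v).coeff 2 = f.coeff 2 ∧ (f + C v).coeff 1 = f.coeff 1 ∧
    (f + C v).coeff 0 = f.coeff 0 + v := by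
  refine ⟨?_, ?_, ?_⟩ <;> rw [coeff_add, coeff_C] <;> simp

lemma RR_poly (f g : ℤ[X]) (hg : g.coeff 2 = 0 → g.coeff 1 ≠ 0) :
    ∃ q : ℤ[X], q ≠ 0 ∧ q.natDegree ≤ 2 ∧ ∀ v : ℤ, q.eval v = RR (f + C v) g := by
  obtain ⟨A, hA⟩ : ∃ A : ℤ, A = if f.coeff 2 = 0 ∧ g.coeff 2 = 0 then 0 else g.coeff 2 ^ 2 := ⟨_, rfl⟩
  obtain ⟨B, hB⟩ : ∃ B : ℤ, B = if f.coeff 2 = 0 ∧ g.coeff 2 = 0 then -g.coeff 1 else
    -2 * g.coeff 2 * (f.coeff 2 * g.coeff 0 - g.coeff 2 * f.coeff 0) +
    (f.coeff 2 * g.coeff 1 - g.coeff 2 * f.coeff 1) * g.coeff 1 := ⟨_, rfl⟩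
  have hev : ∀ v : ℤ, (C A * X ^ 2 + C B * X + C (RR f g)).eval v = RR (f + C v) g := by
    intro v
    obtain ⟨h2, h1, h0⟩ := coeff_shift f v
    simp only [eval_add, eval_mul, eval_C, eval_pow, eval_X]
    unfold RR
    rw [h2, h1, h0, hA, hB]
    split_ifs
    · ring
    · ring
  refine ⟨C A * X ^ 2 + C B * X + C (RR f g), ?_, ?_, hev⟩
  · intro h0
    have c2 : (C A * X ^ 2 + C B * X + C (RR f g)).coeff 2 = A := by
      rw [coeff_add, coeff_add, coeff_C_mul, coeff_C_mul, coeff_C, coeff_X_pow, coeff_X]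
      simp
    have c1 : (C A * X ^ 2 + C B * X + C (RR f g)).coeff 1 = B := by
      rw [coeff_add, coeff_add, coeff_C_mul, coeff_C_mul, coeff_C, coeff_X_pow, coeff_X]
      simp
    rw [h0, coeff_zero] at c2 c1
    by_cases hf : f.coeff 2 = 0 ∧ g.coeff 2 = 0
    · rw [if_pos hf] at hB
      exact hg hf.2 (by omega)
    · rw [if_neg hf] at hA hB
      have hg2 : g.coeff 2 = 0 := by
        have : g.coeff 2 ^ 2 = 0 := by rw [← hA, ← c2]
        exact pow_eq_zero_iff (two_ne_zero) |>.1 this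
      have hf2 : f.coeff 2 ≠ 0 := fun h => hf ⟨h, hg2⟩
      have hg1 := hg hg2
      rw [hg2, ← c1] at hB
      have h5 : f.coeff 2 * (g.coeff 1 * g.coeff 1) = 0 := by linarith
      rcases mul_eq_zero.1 h5 with h | h
      · exact hf2 h
      · rcases mul_eq_zero.1 h with h | h <;> exact hg1 h
  · have : (C A * X ^ 2 + C B * X + C (RR f g)) = C A * X ^ 2 + C B * X + C (RR f g) := rfl
    exact natDegree_quadratic_le

/-- few values of the constant term for which there are common zeros -/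
lemma RR_few (f g : ℤ[X]) (hg : g.coeff 2 = 0 → g.coeff 1 ≠ 0) (s : Finset ℕ) (hs : ∀ v ∈ s, RR (f + C (v : ℤ)) g = 0) :
    s.card ≤ 2 := by
  classical
  obtain ⟨q, hq0, hq2, hq⟩ := RR_poly f g hg
  have h1 : s.card ≤ q.roots.toFinset.card := by
    apply card_le_card_of_injOn (fun v : ℕ => (v : ℤ))
    · intro v hv
      rw [mem_coe, Multiset.mem_toFinset, mem_roots hq0, IsRoot.def, hq]
      exact hs v hv
    · intro v _ v' _ h
      simp only at h
      exact_mod_cast h
  exact h1.trans ((Multiset.toFinset_card_le _).trans ((card_roots' q).trans hq2))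

lemma RR_symm (f g : ℤ[X]) : RR g f = RR f g ∨ RR g f = -RR f g := by
  unfold RR
  by_cases h : f.coeff 2 = 0 ∧ g.coeff 2 = 0
  · rw [if_pos h, if_pos h.symm]
    right
    ring
  · rw [if_neg h, if_neg (fun h' => h h'.symm)]
    left
    ring

lemma RR_ne_symm {f g : ℤ[X]} (h : RR f g ≠ 0) : RR g f ≠ 0 := by
  rcases RR_symm f g with h1 | h1
  · rwa [h1]
  · rw [h1]
    exact neg_ne_zero.2 h

/-- the conditions for the vector `a` -/
def Cond (P : Finset ℤ[X]) (F : Fin k → ℤ[X]) (z : ℕ) (δ : ℝ) (a : Fin k → ℕ) : Prop :=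
  (∀ i j, i ≠ j → RR (F i + C (a i : ℤ)) (F j + C (a j : ℤ)) ≠ 0) ∧
  (∀ i, RR (F i + C (a i : ℤ)) X ≠ 0) ∧
  ∀ i, (F i).coeff 2 ≠ 0 → ¬ IsSquare (DD (F i + C (a i : ℤ))) ∧ ∀ᶠ N in atTop, |SJ (DD (F i + C (a i : ℤ))) z N| ≤ δ

lemma DD_shift (f : ℤ[X]) (v : ℤ) : DD (f + C v) = f.coeff 1 ^ 2 - 4 * f.coeff 2 * (f.coeff 0 + v) := by
  obtain ⟨h2, h1, h0⟩ := coeff_shift f v
  unfold DD
  rw [h2, h1, h0]

open Classical in
/-- most vectors have no common zeros -/
lemma rr_most (F : Fin k → ℤ[X]) (hc : ∀ i, (F i).coeff 2 = 0 → (F i).coeff 1 ≠ 0) (hd : ∀ i, 1 ≤ (F i).natDegree) (B U : ℕ) :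
    ∃ N0 : ℕ, ∀ x : ℕ, N0 ≤ x → ∀ A : Fin k → ℕ, (∀ i, x ^ (F i).natDegree ≤ B * A i) →
      (((Fintype.piFinset (fun i => Icc 1 (A i))).filter (fun a => ¬ ((∀ i j, i ≠ j → RR (F i + C (a i : ℤ)) (F j + C (a j : ℤ)) ≠ 0) ∧
        (∀ i, RR (F i + C (a i : ℤ)) X ≠ 0)))).card : ℝ) ≤ (∏ i, (A i : ℝ)) / Real.log x ^ U := by
  obtain ⟨N1, h1⟩ := ev_log' U ((k * k + k) * (2 * B) + 1)
  refine ⟨N1 + 3, fun x hx A hA => ?_⟩
  have k1 := h1 x (by omega)
  have hxr : (3 : ℝ) ≤ x := by exact_mod_cast (by omega : 3 ≤ x)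
  have hx0 : (0 : ℝ) < x := by linarith
  have hL0 : 0 < Real.log x := Real.log_pos (by linarith)
  have hss : √(x : ℝ) ≤ x := by
    rw [Real.sqrt_le_left hx0.le]
    nlinarith
  obtain ⟨box, hbox⟩ : ∃ box, box = Fintype.piFinset (fun i => Icc 1 (A i)) := ⟨_, rfl⟩
  rw [← hbox]
  have hAx : ∀ i, x ≤ B * A i := by
    intro i
    refine le_trans ?_ (hA i)
    calc x = x ^ 1 := (pow_one x).symm
      _ ≤ x ^ (F i).natDegree := Nat.pow_le_pow_right (by omega) (hd i)
  have hone : ∀ (R : (Fin k → ℕ) → Prop) [DecidablePred R] (i : Fin k),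
      (∀ b : Fin k → ℕ, ∀ s : Finset ℕ, (∀ v ∈ s, R (Function.update b i v)) → s.card ≤ 2) →
      (box.filter R).card * x ≤ 2 * B * ∏ i, A i := by
    intro R _ i hR
    have h2 := slice_n A R i 2 hR
    rw [← hbox] at h2
    calc (box.filter R).card * x ≤ (box.filter R).card * (B * A i) := Nat.mul_le_mul_left _ (hAx i)
      _ = B * ((box.filter R).card * A i) := by ring
      _ ≤ B * (2 * ∏ i, A i) := Nat.mul_le_mul_left _ h2
      _ = _ := by ring
  have hsub : box.filter (fun a => ¬ ((∀ i j, i ≠ j → RR (F i + C (a i : ℤ)) (F j + C (a j : ℤ)) ≠ 0) ∧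
        (∀ i, RR (F i + C (a i : ℤ)) X ≠ 0))) ⊆
      ((univ : Finset (Fin k × Fin k)).biUnion (fun q => box.filter (fun a => q.1 ≠ q.2 ∧ RR (F q.1 + C (a q.1 : ℤ)) (F q.2 + C (a q.2 : ℤ)) = 0))) ∪
      ((univ : Finset (Fin k)).biUnion (fun i => box.filter (fun a => RR (F i + C (a i : ℤ)) X = 0))) := by
    intro a ha
    rw [mem_filter] at ha
    obtain ⟨ha1, ha2⟩ := ha
    rw [not_and_or] at ha2
    rw [mem_union]
    rcases ha2 with h | h
    · left
      push Not at h
      obtain ⟨i, j, hij, hh⟩ := h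
      rw [mem_biUnion]
      exact ⟨(i, j), mem_univ _, mem_filter.2 ⟨ha1, hij, hh⟩⟩
    · right
      push Not at h
      obtain ⟨i, hi⟩ := h
      rw [mem_biUnion]
      exact ⟨i, mem_univ _, mem_filter.2 ⟨ha1, hi⟩⟩
  have c1 : ∀ q ∈ (univ : Finset (Fin k × Fin k)), (box.filter (fun a => q.1 ≠ q.2 ∧ RR (F q.1 + C (a q.1 : ℤ)) (F q.2 + C (a q.2 : ℤ)) = 0)).card * x ≤ 2 * B * ∏ i, A i := by
    intro q _
    apply hone _ q.1
    intro b s hs
    rcases s.eq_empty_or_nonempty with hse | ⟨v0, hv0⟩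
    · rw [hse]; simp
    have hne := (hs v0 hv0).1
    apply RR_few (F q.1) (F q.2 + C (b q.2 : ℤ)) (by
      obtain ⟨h2, h1, _⟩ := coeff_shift (F q.2) (b q.2 : ℤ)
      rw [h2, h1]
      exact hc q.2) s
    intro v hv
    have h3 := (hs v hv).2
    rw [Function.update_self, Function.update_of_ne hne.symm] at h3
    exact h3
  have c2 : ∀ i ∈ (univ : Finset (Fin k)), (box.filter (fun a => RR (F i + C (a i : ℤ)) X = 0)).card * x ≤ 2 * B * ∏ i, A i := by
    intro i _
    apply hone _ i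
    intro b s hs
    apply RR_few (F i) X (by simp [coeff_X]) s
    intro v hv
    have h3 := hs v hv
    rw [Function.update_self] at h3
    exact h3
  have htot : (box.filter (fun a => ¬ ((∀ i j, i ≠ j → RR (F i + C (a i : ℤ)) (F j + C (a j : ℤ)) ≠ 0) ∧
        (∀ i, RR (F i + C (a i : ℤ)) X ≠ 0)))).card * x ≤ (k * k + k) * (2 * B * ∏ i, A i) := by
    have g1 := (card_le_card hsub).trans (card_union_le _ _)
    have g2 := g1.trans (Nat.add_le_add card_biUnion_le card_biUnion_le)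
    have g3 := Nat.mul_le_mul_right x g2
    refine g3.trans ?_
    rw [add_mul, sum_mul, sum_mul, add_mul]
    apply Nat.add_le_add
    · refine (sum_le_sum c1).trans (le_of_eq ?_)
      rw [sum_const, card_univ, Fintype.card_prod, Fintype.card_fin, smul_eq_mul]
    · refine (sum_le_sum c2).trans (le_of_eq ?_)
      rw [sum_const, card_univ, Fintype.card_fin, smul_eq_mul]
  obtain ⟨n, hn⟩ : ∃ n, n = (box.filter (fun a => ¬ ((∀ i j, i ≠ j → RR (F i + C (a i : ℤ)) (F j + C (a j : ℤ)) ≠ 0) ∧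
        (∀ i, RR (F i + C (a i : ℤ)) X ≠ 0)))).card := ⟨_, rfl⟩
  rw [← hn] at htot ⊢
  have htr : (n : ℝ) * x ≤ (k * k + k) * (2 * B * ∏ i, (A i : ℝ)) := by exact_mod_cast htot
  rw [le_div_iff₀ (by positivity)]
  have hprod : 0 ≤ ∏ i, (A i : ℝ) := prod_nonneg fun _ _ => Nat.cast_nonneg _
  have h3 : (n : ℝ) * Real.log x ^ U * x ≤ (∏ i, (A i : ℝ)) * x := by
    calc (n : ℝ) * Real.log x ^ U * x = ((n : ℝ) * x) * Real.log x ^ U := by ring
      _ ≤ ((k * k + k) * (2 * B * ∏ i, (A i : ℝ))) * Real.log x ^ U := mul_le_mul_of_nonneg_right htr (by positivity)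
      _ = (∏ i, (A i : ℝ)) * (((k * k + k) * (2 * B)) * Real.log x ^ U) := by ring
      _ ≤ (∏ i, (A i : ℝ)) * x := by
          apply mul_le_mul_of_nonneg_left _ hprod
          have h4 : 0 ≤ Real.log x ^ U := by positivity
          nlinarith
  exact le_of_mul_le_mul_right h3 hx0

end Pool.Agent.N791.CT
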