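import Mathlib
import Pool.Agent.N791.CT.I

set_option autoImplicit false

/-! The full product for polynomials of degree at most two: the theorem. -/

namespace Pool.Agent.N791.CT
open Finset Polynomial Filter Topology
open Pool.Agent.H373R2.T7
open Pool.Agent.W468.ConjF (SJ PJ PJ_le PJ_tendsto PJ_pos)

variable {k : ℕ}

open Classical in
/-- for one coordinate, the sums over the large primes are small for most vectors -/
lemma sj_one (F : Fin k → ℤ[X]) (i : Fin k) (hc2 : (F i).coeff 2 ≠ 0) (hi2 : (F i).natDegree = 2) (B : ℕ) (hB : 1 ≤ B) (U : ℕ) :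
    ∃ B0 : ℕ, ∀ E : ℕ, ∃ N0 : ℕ, ∀ x : ℕ, N0 ≤ x → ∀ A : Fin k → ℕ,
      (A i ≤ B * x ^ (F i).natDegree ∧ x ^ (F i).natDegree ≤ B * A i) →
      ∀ z : ℕ, Real.log x ^ B0 ≤ z → (z : ℝ) ≤ Real.log x ^ E →
      (((Fintype.piFinset (fun i => Icc 1 (A i))).filter (fun a => ¬ (¬ IsSquare (DD (F i + C (a i : ℤ))) ∧
        ∀ᶠ N in atTop, |SJ (DD (F i + C (a i : ℤ))) z N| ≤ 1 / Real.log x ^ U))).card : ℝ) ≤
      (∏ i, (A i : ℝ)) / Real.log x ^ U := by
  obtain ⟨U', hU'⟩ : ∃ U', U' = U + 1 := ⟨_, rfl⟩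
  refine ⟨2 * (3 * (U' + 1) + 4), fun E => ?_⟩
  obtain ⟨X0, h0⟩ := Pool.Agent.R460.SC.tail_both ((F i).coeff 2) hc2 ((F i).coeff 1) (1 / 4) (by norm_num) U' E
  obtain ⟨N1, h1⟩ := ev_L' 9
  obtain ⟨g, hg⟩ : ∃ g, g = ((F i).coeff 0).natAbs := ⟨_, rfl⟩
  obtain ⟨N2, h2⟩ := ev_log' (U + 1) (B * (g + 1) + B + 1)
  refine ⟨X0 * B + N1 + N2 + B * g + B + 3, fun x hx A hA z hz1 hz2 => ?_⟩
  have k1 := h1 x (by omega)
  have k2 := h2 x (by omega)
  rw [hi2] at hA
  have hx3 : 3 ≤ x := by omega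
  have hxr : (3 : ℝ) ≤ x := by exact_mod_cast hx3
  have hx0 : (0 : ℝ) < x := by linarith
  obtain ⟨L, hL⟩ : ∃ L, L = Real.log (x : ℝ) := ⟨_, rfl⟩
  rw [← hL] at k1 k2 hz1 hz2 ⊢
  have hL1 : 1 ≤ L := by linarith
  have hL0 : 0 < L := by linarith
  have hBr : (1 : ℝ) ≤ B := by exact_mod_cast hB
  -- sizes
  have hAx : x ≤ A i := by
    have h3 : B * x ≤ x ^ 2 := by
      rw [sq]
      apply Nat.mul_le_mul_right
      omega
    exact Nat.le_of_mul_le_mul_left (h3.trans hA.2) (by omega)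
  have hgA : g ≤ A i := by
    have : g ≤ x := by
      have : g ≤ B * g := Nat.le_mul_of_pos_left g (by omega)
      omega
    omega
  obtain ⟨Y, hY⟩ : ∃ Y, Y = A i + g := ⟨_, rfl⟩
  have hYx : x ≤ Y := by omega
  have hY3 : Y ≤ x ^ 3 := by
    have h3 : Y ≤ (B + g) * x ^ 2 := by
      rw [hY, add_mul]
      have : g ≤ g * x ^ 2 := Nat.le_mul_of_pos_right g (by positivity)
      omega
    have h4 : (B + g) * x ^ 2 ≤ x * x ^ 2 := by
      apply Nat.mul_le_mul_right
      have : g ≤ B * g := Nat.le_mul_of_pos_left g (by omega)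
      omega
    calc Y ≤ x * x ^ 2 := h3.trans h4
      _ = x ^ 3 := by ring
  have hY0 : (0 : ℝ) < Y := by
    have : (x : ℝ) ≤ Y := by exact_mod_cast hYx
    linarith
  have hlY1 : L ≤ Real.log Y := by
    rw [hL]
    exact Real.log_le_log hx0 (by exact_mod_cast hYx)
  have hlY2 : Real.log Y ≤ 3 * L := by
    have h3 : (Y : ℝ) ≤ (x : ℝ) ^ 3 := by exact_mod_cast hY3
    have h4 := Real.log_le_log hY0 h3
    rw [Real.log_pow, ← hL] at h4
    exact_mod_cast h4
  have hlY0 : 0 < Real.log Y := by linarith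
  have hzY1 : Real.log Y ^ (3 * (U' + 1) + 4) ≤ z := by
    refine le_trans ?_ hz1
    rw [pow_mul]
    apply pow_le_pow_left₀ hlY0.le
    nlinarith
  have hzY2 : (z : ℝ) ≤ Real.log Y ^ E := hz2.trans (pow_le_pow_left₀ hL0.le hlY1 _)
  obtain ⟨Ex, hEx1, hEx2⟩ := h0 Y (by
    have : X0 ≤ X0 * B := Nat.le_mul_of_pos_right X0 (by omega)
    omega) z hzY1 hzY2 1 le_rfl (by
      rw [Nat.cast_one]
      apply Real.one_le_rpow (by
        have : (x : ℝ) ≤ Y := by exact_mod_cast hYx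
        linarith) (by norm_num)) 0
  obtain ⟨box, hbox⟩ : ∃ box, box = Fintype.piFinset (fun i => Icc 1 (A i)) := ⟨_, rfl⟩
  -- the bad set is contained in the vectors with constant term in `Ex`
  have hsub : box.filter (fun a => ¬ (¬ IsSquare (DD (F i + C (a i : ℤ))) ∧
        ∀ᶠ N in atTop, |SJ (DD (F i + C (a i : ℤ))) z N| ≤ 1 / L ^ U)) ⊆
      box.filter (fun a => (F i).coeff 0 + (a i : ℤ) ∈ Ex) := by
    intro a ha
    rw [mem_filter] at ha ⊢
    refine ⟨ha.1, ?_⟩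
    by_contra hno
    apply ha.2
    have hai : 1 ≤ a i ∧ a i ≤ A i := by
      have := ha.1
      rw [hbox, Fintype.mem_piFinset] at this
      exact mem_Icc.1 (this i)
    obtain ⟨e1, e2⟩ := hEx2 ((F i).coeff 0 + (a i : ℤ)) (by omega) (by omega) (by
      rw [Nat.cast_one]
      exact Int.modEq_one) hno
    rw [← DD_shift] at e1 e2
    refine ⟨e1, ?_⟩
    filter_upwards [e2] with N hN
    refine hN.trans ?_
    apply one_div_le_one_div_of_le (by positivity)
    calc L ^ U ≤ Real.log Y ^ U := pow_le_pow_left₀ hL0.le hlY1 _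
      _ ≤ Real.log Y ^ U' := pow_le_pow_right₀ (by linarith) (by omega)
  have hcount := slice_n A (fun a => (F i).coeff 0 + (a i : ℤ) ∈ Ex) i Ex.card (by
    intro b s hs
    apply card_le_card_of_injOn (fun v : ℕ => (F i).coeff 0 + (v : ℤ))
    · intro v hv
      have := hs v hv
      rw [Function.update_self] at this
      exact this
    · intro v _ v' _ h
      simp only at h
      have : (v : ℤ) = v' := by linarith
      exact_mod_cast this)
  rw [← hbox] at hcount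
  have hAi0 : (0 : ℝ) < A i := by
    have : (x : ℝ) ≤ A i := by exact_mod_cast hAx
    linarith
  have hprod : 0 ≤ ∏ i, (A i : ℝ) := prod_nonneg fun _ _ => Nat.cast_nonneg _
  have hc : ((box.filter (fun a => ¬ (¬ IsSquare (DD (F i + C (a i : ℤ))) ∧
        ∀ᶠ N in atTop, |SJ (DD (F i + C (a i : ℤ))) z N| ≤ 1 / L ^ U))).card : ℝ) * A i ≤ Ex.card * ∏ i, (A i : ℝ) := by
    have h3 : ((box.filter (fun a => ¬ (¬ IsSquare (DD (F i + C (a i : ℤ))) ∧
        ∀ᶠ N in atTop, |SJ (DD (F i + C (a i : ℤ))) z N| ≤ 1 / L ^ U))).card : ℝ) ≤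
        ((box.filter (fun a => (F i).coeff 0 + (a i : ℤ) ∈ Ex)).card : ℝ) := by exact_mod_cast card_le_card hsub
    have h4 : ((box.filter (fun a => (F i).coeff 0 + (a i : ℤ) ∈ Ex)).card : ℝ) * A i ≤ Ex.card * ∏ i, (A i : ℝ) := by
      exact_mod_cast hcount
    exact (mul_le_mul_of_nonneg_right h3 hAi0.le).trans h4
  have hExc : (Ex.card : ℝ) ≤ (A i : ℝ) / L ^ U := by
    refine hEx1.trans ?_
    rw [Nat.cast_one, one_mul]
    have hYA : (Y : ℝ) ≤ 2 * A i := by
      have : Y ≤ 2 * A i := by omega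
      exact_mod_cast this
    have h3 : (Y : ℝ) / Real.log Y ^ U' ≤ 2 * A i / (L ^ U * L) := by
      rw [← pow_succ, ← hU']
      exact div_le_div₀ (by positivity) hYA (by positivity) (pow_le_pow_left₀ hL0.le hlY1 _)
    have h4 : (1 : ℝ) ≤ A i / (L ^ U * L) := by
      rw [one_le_div (by positivity), ← pow_succ]
      have h5 : L ^ (U + 1) ≤ √x := by
        have h6 : (1 : ℝ) ≤ B * (g + 1) + B + 1 := by
          have : (0 : ℝ) ≤ g := Nat.cast_nonneg _
          have : 0 ≤ (B : ℝ) * (g + 1) := by positivity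
          linarith
        have h7 : 0 ≤ L ^ (U + 1) := by positivity
        nlinarith
      have h8 : √(x : ℝ) ≤ x := by
        rw [Real.sqrt_le_left hx0.le]
        nlinarith
      have h9 : (x : ℝ) ≤ A i := by exact_mod_cast hAx
      linarith
    have h5 : (A i : ℝ) / L ^ U = L * (A i / (L ^ U * L)) := by
      field_simp
    rw [h5]
    have h6 : 2 * (A i : ℝ) / (L ^ U * L) = 2 * (A i / (L ^ U * L)) := by ring
    rw [h6] at h3
    nlinarith
  rw [← hbox]
  have hfin : ((box.filter (fun a => ¬ (¬ IsSquare (DD (F i + C (a i : ℤ))) ∧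
        ∀ᶠ N in atTop, |SJ (DD (F i + C (a i : ℤ))) z N| ≤ 1 / L ^ U))).card : ℝ) * A i ≤ ((∏ i, (A i : ℝ)) / L ^ U) * A i := by
    refine hc.trans ?_
    calc (Ex.card : ℝ) * ∏ i, (A i : ℝ) ≤ (A i : ℝ) / L ^ U * ∏ i, (A i : ℝ) := mul_le_mul_of_nonneg_right hExc hprod
      _ = _ := by ring
  exact le_of_mul_le_mul_right hfin hAi0

end Pool.Agent.N791.CT
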