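import Mathlib
import Pool.Agent.N791.CT.J

set_option autoImplicit false

/-! The full product for polynomials of degree at most two: the assembly. -/

namespace Pool.Agent.N791.CT
open Finset Polynomial Filter Topology
open Pool.Agent.H373R2.T7
open Pool.Agent.W468.ConjF (SJ PJ PJ_le PJ_tendsto PJ_pos)

variable {k : ℕ}

lemma RR_le (f g : ℤ[X]) (K G : ℝ) (hK : 1 ≤ K) (hKG : K ≤ G)
    (f2 : |((f.coeff 2 : ℤ) : ℝ)| ≤ K) (f1 : |((f.coeff 1 : ℤ) : ℝ)| ≤ K) (f0 : |((f.coeff 0 : ℤ) : ℝ)| ≤ G)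
    (g2 : |((g.coeff 2 : ℤ) : ℝ)| ≤ K) (g1 : |((g.coeff 1 : ℤ) : ℝ)| ≤ K) (g0 : |((g.coeff 0 : ℤ) : ℝ)| ≤ G) :
    |((RR f g : ℤ) : ℝ)| ≤ 8 * K ^ 3 * G ^ 2 := by
  have hK0 : 0 ≤ K := by linarith
  have hG0 : 0 ≤ G := by linarith
  have hm : ∀ u v p q s t : ℝ, |u| ≤ s → |v| ≤ t → |p| ≤ s → |q| ≤ t → |u * v - p * q| ≤ 2 * (s * t) := by
    intro u v p q s t hu hv hp hq
    have hs := (abs_nonneg _).trans hu
    refine (abs_sub _ _).trans ?_
    rw [abs_mul, abs_mul]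
    have h1 := mul_le_mul hu hv (abs_nonneg _) hs
    have h2 := mul_le_mul hp hq (abs_nonneg _) hs
    linarith
  have hKG1 : 0 ≤ K * G := mul_nonneg hK0 hG0
  have hG1 : 1 ≤ G := by linarith
  unfold RR
  split_ifs with h
  · push_cast
    refine (hm _ _ _ _ K G f1 g0 g1 f0).trans ?_
    have e : 8 * K ^ 3 * G ^ 2 = (2 * (K * G)) * (4 * K ^ 2 * G) := by ring
    rw [e]
    apply le_mul_of_one_le_right (by positivity)
    nlinarith [one_le_pow₀ hK (n := 2)]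
  · push_cast
    refine (abs_sub _ _).trans ?_
    rw [abs_pow, abs_mul]
    have h1 := hm (f.coeff 2) (g.coeff 0) (g.coeff 2) (f.coeff 0) K G f2 g0 g2 f0
    have h2 := hm (f.coeff 2) (g.coeff 1) (g.coeff 2) (f.coeff 1) K K f2 g1 g2 f1
    have h3 := hm (f.coeff 1) (g.coeff 0) (g.coeff 1) (f.coeff 0) K G f1 g0 g1 f0
    have h4 := pow_le_pow_left₀ (abs_nonneg _) h1 2
    have h5 := mul_le_mul h2 h3 (abs_nonneg _) (by positivity)
    have e1 : (2 * (K * G)) ^ 2 ≤ 4 * K ^ 3 * G ^ 2 := by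
      have : (2 * (K * G)) ^ 2 = 4 * K ^ 2 * G ^ 2 := by ring
      rw [this]
      have h6 : K ^ 2 ≤ K ^ 3 := pow_le_pow_right₀ hK (by norm_num)
      have h7 : 0 ≤ G ^ 2 := by positivity
      nlinarith
    have e2 : 2 * (K * K) * (2 * (K * G)) ≤ 4 * K ^ 3 * G ^ 2 := by
      have : 2 * (K * K) * (2 * (K * G)) = 4 * K ^ 3 * G := by ring
      rw [this]
      have h6 : G ≤ G ^ 2 := by nlinarith
      have h7 : 0 ≤ 4 * K ^ 3 := by positivity
      nlinarith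
    linarith

lemma coeff_one_ne (f : ℤ[X]) (h1 : 1 ≤ f.natDegree) (h2 : f.natDegree ≤ 2) (h : f.coeff 2 = 0) : f.coeff 1 ≠ 0 := by
  have h3 : f.natDegree ≠ 2 := by
    intro h4
    have h5 : f.leadingCoeff = 0 := by rw [leadingCoeff, h4, h]
    rw [leadingCoeff_eq_zero] at h5
    rw [h5, natDegree_zero] at h1
    omega
  have h4 : f.natDegree = 1 := by omega
  intro h5
  have h6 : f.leadingCoeff = 0 := by rw [leadingCoeff, h4, h5]
  rw [leadingCoeff_eq_zero] at h6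
  rw [h6, natDegree_zero] at h1
  omega

/-- the conclusion for one vector of constant terms -/
def GoodF (P : Finset ℤ[X]) (F : Fin k → ℤ[X]) (U x : ℕ) (a : Fin k → ℕ) : Prop :=
  (family P F a).card = P.card + k ∧
  ∃ CH : ℝ, Tendsto (fun z : ℕ => eulerProd (family P F a) z) atTop (𝓝 CH) ∧
  (∀ y : ℕ, y ≤ x → |(primeCount (family P F a) y : ℝ) - CH * logSum (family P F a) y| ≤ x / Real.log x ^ U) ∧
  ((∀ p : ℕ, p.Prime → omega (family P F a) p < p) → 0 < CH ∧ ∀ y : ℕ, (x : ℝ) / Real.log x ^ U ≤ y → y ≤ x →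
    |(primeCount (family P F a) y : ℝ) - CH * logSum (family P F a) y| ≤ CH * logSum (family P F a) y / Real.log x ^ U)

lemma logSum_nonneg (H : Finset ℤ[X]) (y : ℕ) : 0 ≤ logSum H y := by
  classical
  unfold logSum
  apply sum_nonneg
  intro n hn
  exact (gH_nonneg H n (mem_filter.1 hn).2).1

lemma primeCount_le (H : Finset ℤ[X]) (y : ℕ) : (primeCount H y : ℝ) ≤ y := by
  unfold primeCount
  have : ((Icc 1 y).filter (fun n : ℕ => ∀ f ∈ H, (f.eval (n : ℤ)).natAbs.Prime)).card ≤ y :=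
    (card_filter_le _ _).trans (by rw [Nat.card_Icc]; omega)
  exact_mod_cast this

lemma euler_pos (H : Finset ℤ[X]) (z : ℕ) (h : ∀ p : ℕ, p.Prime → omega H p < p) : 0 < eulerProd H z := by
  unfold eulerProd
  apply prod_pos
  intro p hp
  have hpp := (mem_filter.1 hp).2
  have hp0 : (0 : ℝ) < p := by exact_mod_cast hpp.pos
  have hp1 : (1 : ℝ) < p := by exact_mod_cast hpp.one_lt
  have h1 : (omega H p : ℝ) < p := by exact_mod_cast h p hpp
  have h2 : (omega H p : ℝ) / p < 1 := by rw [div_lt_one hp0]; exact h1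
  have h3 : 1 / (p : ℝ) < 1 := by rw [div_lt_one hp0]; exact hp1
  apply div_pos
  · linarith
  · apply pow_pos
    linarith

/-- from the truncated to the full product -/
lemma good_full (P : Finset ℤ[X]) (F : Fin k → ℤ[X]) (U x z : ℕ) (a : Fin k → ℕ) (hx : 1 ≤ x) (hL : 4 ≤ Real.log x)
    (hG : Good P F (U + 2) x z a) (Λ : ℝ) (hΛ0 : 0 < Λ) (hΛ : |Λ - 1| ≤ 1 / Real.log x ^ (U + 2))
    (hT : Tendsto (fun N => eulerProd (family P F a) N) atTop (𝓝 (eulerProd (family P F a) z * Λ))) : GoodF P F U x a := by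
  obtain ⟨h1, h2, h3⟩ := hG
  obtain ⟨H, hH⟩ : ∃ H, H = family P F a := ⟨_, rfl⟩
  unfold GoodF
  rw [← hH] at h1 h2 h3 hT ⊢
  obtain ⟨L, hLL⟩ : ∃ L, L = Real.log (x : ℝ) := ⟨_, rfl⟩
  rw [← hLL] at hL hΛ h2 h3 ⊢
  obtain ⟨Ez, hEz⟩ : ∃ Ez, Ez = eulerProd H z := ⟨_, rfl⟩
  rw [← hEz] at h2 h3 hT
  have hL0 : 0 < L := by linarith
  have hL1 : 1 ≤ L := by linarith
  have hx0 : (0 : ℝ) < x := by exact_mod_cast hx
  have hp2 : (1 : ℝ) ≤ L ^ (U + 2) := one_le_pow₀ hL1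
  have hpU : L ^ (U + 2) = L ^ 2 * L ^ U := by rw [pow_add]; ring
  have hΛ1 : |Λ - 1| ≤ 1 / 2 := by
    refine hΛ.trans ?_
    apply one_div_le_one_div_of_le (by norm_num)
    calc (2 : ℝ) ≤ L := by linarith
      _ ≤ L ^ (U + 2) := le_self_pow₀ hL1 (by omega)
  have hΛl : 1 / 2 ≤ Λ := by have := (abs_le.1 hΛ1).1; linarith
  refine ⟨h1, Ez * Λ, hT, fun y hy => ?_, fun hfix => ⟨?_, fun y hy1 hy2 => ?_⟩⟩
  · have g1 := h2 y hy
    have hyx : (y : ℝ) ≤ x := by exact_mod_cast hy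
    have g2 : |Ez * logSum H y| ≤ 2 * x := by
      have g3 := primeCount_le H y
      have g4 : (0 : ℝ) ≤ primeCount H y := Nat.cast_nonneg _
      have g5 : (x : ℝ) / L ^ (U + 2) ≤ x := by
        rw [div_le_iff₀ (by positivity)]
        nlinarith
      rw [abs_le] at g1 ⊢
      constructor <;> linarith
    have e : (primeCount H y : ℝ) - Ez * Λ * logSum H y =
        (primeCount H y - Ez * logSum H y) - (Ez * logSum H y) * (Λ - 1) := by ring
    rw [e]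
    refine (abs_sub _ _).trans ?_
    rw [abs_mul]
    have g6 : |Ez * logSum H y| * |Λ - 1| ≤ 2 * x * (1 / L ^ (U + 2)) :=
      mul_le_mul g2 hΛ (abs_nonneg _) (by positivity)
    have g7 : (x : ℝ) / L ^ (U + 2) + 2 * x * (1 / L ^ (U + 2)) = (3 / L ^ 2) * (x / L ^ U) := by
      rw [hpU]
      field_simp
      ring
    have g8 : 3 / L ^ 2 ≤ 1 := by
      rw [div_le_one (by positivity)]
      nlinarith
    have g9 : 0 ≤ (x : ℝ) / L ^ U := by positivity
    calc _ ≤ (x : ℝ) / L ^ (U + 2) + 2 * x * (1 / L ^ (U + 2)) := add_le_add g1 g6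
      _ = (3 / L ^ 2) * (x / L ^ U) := g7
      _ ≤ 1 * (x / L ^ U) := mul_le_mul_of_nonneg_right g8 g9
      _ = _ := one_mul _
  · rw [hEz]
    exact mul_pos (euler_pos H z hfix) hΛ0
  · have hEp : 0 < Ez := by rw [hEz]; exact euler_pos H z hfix
    have hy1' : (x : ℝ) / L ^ (U + 2) ≤ y := by
      refine le_trans ?_ hy1
      apply div_le_div_of_nonneg_left hx0.le (by positivity)
      exact pow_le_pow_right₀ hL1 (by omega)
    have g1 := h3 hfix y hy1' hy2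
    have hls := logSum_nonneg H y
    have hM0 : 0 ≤ Ez * logSum H y := mul_nonneg hEp.le hls
    have e : (primeCount H y : ℝ) - Ez * Λ * logSum H y =
        (primeCount H y - Ez * logSum H y) - (Ez * logSum H y) * (Λ - 1) := by ring
    rw [e]
    refine (abs_sub _ _).trans ?_
    rw [abs_mul, abs_of_nonneg hM0]
    have g6 : Ez * logSum H y * |Λ - 1| ≤ Ez * logSum H y * (1 / L ^ (U + 2)) := mul_le_mul_of_nonneg_left hΛ hM0
    have g7 : Ez * logSum H y / L ^ (U + 2) + Ez * logSum H y * (1 / L ^ (U + 2)) = (2 / L ^ 2) * (Ez * logSum H y / L ^ U) := by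
      rw [hpU]
      field_simp
      ring
    have g8 : 2 / L ^ 2 ≤ 1 / 2 := by
      rw [div_le_div_iff₀ (by positivity) (by norm_num)]
      nlinarith
    have g9 : 0 ≤ Ez * logSum H y / L ^ U := by positivity
    calc _ ≤ Ez * logSum H y / L ^ (U + 2) + Ez * logSum H y * (1 / L ^ (U + 2)) := add_le_add g1 g6
      _ = (2 / L ^ 2) * (Ez * logSum H y / L ^ U) := g7
      _ ≤ Λ * (Ez * logSum H y / L ^ U) := mul_le_mul_of_nonneg_right (g8.trans hΛl) g9
      _ = _ := by ring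

set_option maxHeartbeats 1000000 in
theorem full (F : Fin k → ℤ[X]) (hd : ∀ i, 1 ≤ (F i).natDegree) (hd2 : ∀ i, (F i).natDegree ≤ 2) (hl : ∀ i, 0 < (F i).leadingCoeff)
    (P : Finset ℤ[X]) (hP : P ⊆ {X}) (B : ℕ) (hB : 1 ≤ B) (U : ℕ) :
    ∃ N0 : ℕ, ∀ x : ℕ, N0 ≤ x → ∀ A : Fin k → ℕ,
      (∀ i, A i ≤ B * x ^ (F i).natDegree ∧ x ^ (F i).natDegree ≤ B * A i) →
      ∃ S : Finset (Fin k → ℕ), (S.card : ℝ) ≤ (∏ i, (A i : ℝ)) / Real.log x ^ U ∧
        ∀ a ∈ Fintype.piFinset (fun i => Icc 1 (A i)), a ∉ S → GoodF P F U x a := by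
  classical
  have hc1 : ∀ i, (F i).coeff 2 = 0 → (F i).coeff 1 ≠ 0 := fun i => coeff_one_ne (F i) (hd i) (hd2 i)
  -- the ingredients
  obtain ⟨Bm, hBm⟩ := main F hd hl P hP B hB (U + 2)
  have hsj : ∀ i : Fin k, ∃ B0 : ℕ, ∀ E : ℕ, ∃ N0 : ℕ, ∀ x : ℕ, N0 ≤ x → ∀ A : Fin k → ℕ,
      (A i ≤ B * x ^ (F i).natDegree ∧ x ^ (F i).natDegree ≤ B * A i) →
      ∀ z : ℕ, Real.log x ^ B0 ≤ z → (z : ℝ) ≤ Real.log x ^ E →
      (((Fintype.piFinset (fun i => Icc 1 (A i))).filter (fun a => ¬ ((F i).coeff 2 ≠ 0 → ¬ IsSquare (DD (F i + C (a i : ℤ))) ∧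
        ∀ᶠ N in atTop, |SJ (DD (F i + C (a i : ℤ))) z N| ≤ 1 / Real.log x ^ (U + 6)))).card : ℝ) ≤
      (∏ i, (A i : ℝ)) / Real.log x ^ (U + 6) := by
    intro i
    by_cases h : (F i).coeff 2 = 0
    · refine ⟨0, fun E => ⟨3, fun x hx A _ z _ _ => ?_⟩⟩
      have e : ((Fintype.piFinset (fun i => Icc 1 (A i))).filter (fun a => ¬ ((F i).coeff 2 ≠ 0 → ¬ IsSquare (DD (F i + C (a i : ℤ))) ∧
        ∀ᶠ N in atTop, |SJ (DD (F i + C (a i : ℤ))) z N| ≤ 1 / Real.log x ^ (U + 6)))) = ∅ := by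
        rw [filter_eq_empty_iff]
        intro a _ h1
        exact h1 (fun h2 => absurd h h2)
      rw [e, card_empty, Nat.cast_zero]
      have : 0 ≤ Real.log x := Real.log_natCast_nonneg _
      have : 0 ≤ ∏ i, (A i : ℝ) := prod_nonneg fun _ _ => Nat.cast_nonneg _
      positivity
    · have hi2 : (F i).natDegree = 2 := by
        have h3 : 2 ≤ (F i).natDegree := le_natDegree_of_ne_zero h
        have := hd2 i
        omega
      obtain ⟨B0, h0⟩ := sj_one F i h hi2 B hB (U + 6)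
      refine ⟨B0, fun E => ?_⟩
      obtain ⟨N0, h1⟩ := h0 E
      refine ⟨N0, fun x hx A hA z hz1 hz2 => ?_⟩
      refine le_trans (le_of_eq ?_) (h1 x hx A hA z hz1 hz2)
      congr 2
      ext a
      simp only [mem_filter]
      refine and_congr_right fun _ => ?_
      constructor
      · intro h2 h3
        exact h2 (fun _ => h3)
      · intro h2 h3
        exact h2 (h3 h)
  choose Bs hBs using hsj
  obtain ⟨B0, hB0⟩ : ∃ B0, B0 = Bm + ∑ i, Bs i + (U + 6) := ⟨_, rfl⟩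
  obtain ⟨N1, h1⟩ := hBm (B0 + 1)
  choose Ns hNs using fun i => hBs i (B0 + 1)
  obtain ⟨N2, h2⟩ := rr_most F hc1 hd B (U + 2)
  -- the bound for the coefficients
  obtain ⟨K, hK⟩ : ∃ K : ℕ, K = 1 + ∑ i, (((F i).coeff 2).natAbs + ((F i).coeff 1).natAbs + ((F i).coeff 0).natAbs) := ⟨_, rfl⟩
  have hKi : ∀ i, ((F i).coeff 2).natAbs + ((F i).coeff 1).natAbs + ((F i).coeff 0).natAbs ≤ K := by
    intro i
    have := single_le_sum (f := fun i => ((F i).coeff 2).natAbs + ((F i).coeff 1).natAbs + ((F i).coeff 0).natAbs)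
      (fun _ _ => Nat.zero_le _) (mem_univ i)
    omega
  have hK1 : 1 ≤ K := by omega
  obtain ⟨N3, h3⟩ := ev_L' (2 ^ (k + 2) + K + 200 * (k + 1) ^ 3 + k + 20)
  refine ⟨N1 + ∑ i, Ns i + N2 + N3 + 8 * K ^ 3 * (K + B) ^ 2 + 3, fun x hx A hA => ?_⟩
  have k3 := h3 x (by omega)
  have hx3 : 3 ≤ x := by omega
  have hxr : (3 : ℝ) ≤ x := by exact_mod_cast hx3
  have hx0 : (0 : ℝ) < x := by linarith
  obtain ⟨L, hL⟩ : ∃ L, L = Real.log (x : ℝ) := ⟨_, rfl⟩
  have k3' := k3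
  rw [← hL] at k3
  have hKr : (1 : ℝ) ≤ K := by exact_mod_cast hK1
  have hkr : (0 : ℝ) ≤ k := Nat.cast_nonneg _
  have q1 : (0 : ℝ) < 2 ^ (k + 2) := by positivity
  have q2 : (0 : ℝ) < 200 * ((k : ℝ) + 1) ^ 3 := by positivity
  have hL20 : 20 ≤ L := by linarith
  have hL0 : 0 < L := by linarith
  have hL1 : 1 ≤ L := by linarith
  obtain ⟨z, hz⟩ : ∃ z, z = ⌈L ^ B0⌉₊ := ⟨_, rfl⟩
  have hzlo : L ^ B0 ≤ z := by rw [hz]; exact Nat.le_ceil _
  have hL1B : 1 ≤ L ^ B0 := one_le_pow₀ hL1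
  have hzhi : (z : ℝ) ≤ L ^ (B0 + 1) := by
    have := Nat.ceil_lt_add_one (show 0 ≤ L ^ B0 by positivity)
    rw [← hz] at this
    calc (z : ℝ) ≤ L ^ B0 + 1 := this.le
      _ ≤ L ^ B0 + L ^ B0 := by linarith
      _ = 2 * L ^ B0 := by ring
      _ ≤ L * L ^ B0 := mul_le_mul_of_nonneg_right (by linarith) (by positivity)
      _ = L ^ (B0 + 1) := by ring
  have hzn : ∀ n, n ≤ B0 → L ^ n ≤ z := fun n hn => (pow_le_pow_right₀ hL1 hn).trans hzlo
  have hzL : L ≤ z := by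
    have := hzn 1 (by omega)
    rwa [pow_one] at this
  have hz0 : (0 : ℝ) < z := by linarith
  -- the exceptional vectors
  obtain ⟨S, hS1, hS2⟩ := h1 x (by omega) A hA z (by rw [← hL]; exact hzn Bm (by omega)) (by rw [← hL]; exact hzhi)
  have hBsi : ∀ i, Bs i ≤ B0 := by
    intro i
    have := single_le_sum (f := Bs) (fun _ _ => Nat.zero_le _) (mem_univ i)
    omega
  have hNsi : ∀ i, Ns i ≤ x := by
    intro i
    have := single_le_sum (f := Ns) (fun _ _ => Nat.zero_le _) (mem_univ i)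
    omega
  have hsj := fun i => hNs i x (hNsi i) A (hA i) z (by rw [← hL]; exact hzn _ (hBsi i)) (by rw [← hL]; exact hzhi)
  have hrr := h2 x (by omega) A (fun i => (hA i).2)
  obtain ⟨box, hbox⟩ : ∃ box, box = Fintype.piFinset (fun i => Icc 1 (A i)) := ⟨_, rfl⟩
  rw [← hbox] at hrr
  simp only [← hbox] at hsj
  have hprod : 0 ≤ ∏ i, (A i : ℝ) := prod_nonneg fun _ _ => Nat.cast_nonneg _
  obtain ⟨S2, hS2'⟩ : ∃ S2, S2 = box.filter (fun a => ¬ ((∀ i j, i ≠ j → RR (F i + C (a i : ℤ)) (F j + C (a j : ℤ)) ≠ 0) ∧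
        (∀ i, RR (F i + C (a i : ℤ)) X ≠ 0))) := ⟨_, rfl⟩
  obtain ⟨S3, hS3'⟩ : ∃ S3 : Finset (Fin k → ℕ), S3 = univ.biUnion (fun i => box.filter (fun a => ¬ ((F i).coeff 2 ≠ 0 → ¬ IsSquare (DD (F i + C (a i : ℤ))) ∧
        ∀ᶠ N in atTop, |SJ (DD (F i + C (a i : ℤ))) z N| ≤ 1 / Real.log x ^ (U + 6)))) := ⟨_, rfl⟩
  rw [← hS2'] at hrr
  refine ⟨S ∪ S2 ∪ S3, ?_, ?_⟩
  · have e1 : ((S ∪ S2 ∪ S3).card : ℝ) ≤ S.card + S2.card + S3.card := by
      have e2 := card_union_le (S ∪ S2) S3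
      have e3 := card_union_le S S2
      exact_mod_cast e2.trans (Nat.add_le_add_right e3 _)
    have e3 : (S3.card : ℝ) ≤ k * ((∏ i, (A i : ℝ)) / Real.log x ^ (U + 6)) := by
      have e4 : (S3.card : ℝ) ≤ ∑ i, ((box.filter (fun a => ¬ ((F i).coeff 2 ≠ 0 → ¬ IsSquare (DD (F i + C (a i : ℤ))) ∧
        ∀ᶠ N in atTop, |SJ (DD (F i + C (a i : ℤ))) z N| ≤ 1 / Real.log x ^ (U + 6)))).card : ℝ) := by
        rw [hS3']
        exact_mod_cast card_biUnion_le
      refine e4.trans ((sum_le_sum fun i _ => hsj i).trans (le_of_eq ?_))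
      rw [sum_const, card_univ, Fintype.card_fin, nsmul_eq_mul]
    rw [← hL] at hS1 hrr e3 ⊢
    have e5 : (∏ i, (A i : ℝ)) / L ^ (U + 6) ≤ (∏ i, (A i : ℝ)) / L ^ (U + 2) := by
      apply div_le_div_of_nonneg_left hprod (by positivity)
      exact pow_le_pow_right₀ hL1 (by omega)
    have e6 : (∏ i, (A i : ℝ)) / L ^ U = L ^ 2 * ((∏ i, (A i : ℝ)) / L ^ (U + 2)) := by
      rw [pow_add]
      field_simp
    have e7 : 0 ≤ (∏ i, (A i : ℝ)) / L ^ (U + 2) := by positivity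
    have e8 : (k : ℝ) * ((∏ i, (A i : ℝ)) / L ^ (U + 6)) ≤ k * ((∏ i, (A i : ℝ)) / L ^ (U + 2)) :=
      mul_le_mul_of_nonneg_left e5 hkr
    have e9 : (2 + (k : ℝ)) ≤ L ^ 2 := by nlinarith
    have e10 : (2 + (k : ℝ)) * ((∏ i, (A i : ℝ)) / L ^ (U + 2)) ≤ L ^ 2 * ((∏ i, (A i : ℝ)) / L ^ (U + 2)) :=
      mul_le_mul_of_nonneg_right e9 e7
    linarith
  · intro a ha haS
    rw [mem_union, mem_union, not_or, not_or] at haS
    obtain ⟨⟨hs1, hs2⟩, hs3⟩ := haS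
    have hgood := hS2 a ha hs1
    rw [← hbox] at ha
    have hR : (∀ i j, i ≠ j → RR (F i + C (a i : ℤ)) (F j + C (a j : ℤ)) ≠ 0) ∧ (∀ i, RR (F i + C (a i : ℤ)) X ≠ 0) := by
      by_contra h
      apply hs2
      rw [hS2']
      exact mem_filter.2 ⟨ha, h⟩
    have hJ : ∀ i, (F i).coeff 2 ≠ 0 → ¬ IsSquare (DD (F i + C (a i : ℤ))) ∧
        ∀ᶠ N in atTop, |SJ (DD (F i + C (a i : ℤ))) z N| ≤ 1 / L ^ (U + 6) := by
      intro i
      by_contra h
      apply hs3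
      rw [hS3', mem_biUnion]
      refine ⟨i, mem_univ _, mem_filter.2 ⟨ha, ?_⟩⟩
      rw [← hL]
      exact h
    have haA : ∀ i, 1 ≤ a i ∧ a i ≤ A i := by
      intro i
      rw [hbox, Fintype.mem_piFinset] at ha
      exact mem_Icc.1 (ha i)
    obtain ⟨H, hH⟩ : ∃ H, H = family P F a := ⟨_, rfl⟩
    have hPc : P.card ≤ 1 := by
      have := card_le_card hP
      rwa [card_singleton] at this
    have hcard : H.card ≤ k + 1 := by
      rw [hH, hgood.1]
      omega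
    have hcardr : (H.card : ℝ) ≤ k + 1 := by exact_mod_cast hcard
    have hmem : ∀ f ∈ H, f = X ∨ ∃ i, f = F i + C (a i : ℤ) := by
      intro f hf
      rw [hH, mem_family] at hf
      rcases hf with hf | ⟨i, hi⟩
      · exact Or.inl (mem_singleton.1 (hP hf))
      · exact Or.inr ⟨i, hi.symm⟩
    have hKz : K ≤ z := by
      have : (K : ℝ) ≤ z := by linarith
      exact_mod_cast this
    have hnice : ∀ f ∈ H, Nice z f := by
      intro f hf
      rcases hmem f hf with rfl | ⟨i, rfl⟩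
      · refine ⟨by rw [natDegree_X]; omega, fun _ => ?_, ?_⟩
        · rw [coeff_X_one]
          exact ⟨one_ne_zero, by simp; omega⟩
        · simp [coeff_X]
      · obtain ⟨c2, c1, _⟩ := coeff_shift (F i) (a i : ℤ)
        refine ⟨?_, ?_, ?_⟩
        · rw [natDegree_add_C]
          exact hd2 i
        · rw [c2, c1]
          intro h
          exact ⟨hc1 i h, by have := hKi i; omega⟩
        · rw [c2]
          have := hKi i
          omega
    -- the bound for the numbers `RR`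
    obtain ⟨G, hG⟩ : ∃ G : ℝ, G = K + B * (x : ℝ) ^ 2 := ⟨_, rfl⟩
    have hBr : (1 : ℝ) ≤ B := by exact_mod_cast hB
    have hKG : (K : ℝ) ≤ G := by
      rw [hG]
      have : (0 : ℝ) ≤ B * (x : ℝ) ^ 2 := by positivity
      linarith
    have hGx : 8 * (K : ℝ) ^ 3 * G ^ 2 ≤ (x : ℝ) ^ 5 := by
      have g1 : G ≤ (K + B) * (x : ℝ) ^ 2 := by
        rw [hG]
        have : (1 : ℝ) ≤ (x : ℝ) ^ 2 := one_le_pow₀ (by linarith)
        nlinarith
      have g2 : G ^ 2 ≤ ((K + B) * (x : ℝ) ^ 2) ^ 2 := pow_le_pow_left₀ (by linarith) g1 2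
      have g3 : 8 * (K : ℝ) ^ 3 * (K + B) ^ 2 ≤ x := by
        have : 8 * K ^ 3 * (K + B) ^ 2 ≤ x := by omega
        exact_mod_cast this
      calc 8 * (K : ℝ) ^ 3 * G ^ 2 ≤ 8 * (K : ℝ) ^ 3 * ((K + B) * (x : ℝ) ^ 2) ^ 2 :=
            mul_le_mul_of_nonneg_left g2 (by positivity)
        _ = (8 * (K : ℝ) ^ 3 * (K + B) ^ 2) * (x : ℝ) ^ 4 := by ring
        _ ≤ x * (x : ℝ) ^ 4 := mul_le_mul_of_nonneg_right g3 (by positivity)
        _ = (x : ℝ) ^ 5 := by ring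
    have habs : ∀ (m : ℤ) (n : ℕ), m.natAbs ≤ n → |((m : ℤ) : ℝ)| ≤ n := by
      intro m n h
      have : ((m.natAbs : ℕ) : ℝ) ≤ n := by exact_mod_cast h
      rwa [Nat.cast_natAbs, Int.cast_abs] at this
    have hcf : ∀ f ∈ H, |((f.coeff 2 : ℤ) : ℝ)| ≤ K ∧ |((f.coeff 1 : ℤ) : ℝ)| ≤ K ∧ |((f.coeff 0 : ℤ) : ℝ)| ≤ G := by
      intro f hf
      rcases hmem f hf with rfl | ⟨i, rfl⟩
      · rw [coeff_X_one, coeff_X_zero, coeff_X]
        refine ⟨?_, ?_, ?_⟩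
        · norm_num
        · norm_num
          exact_mod_cast hK1
        · norm_num
          linarith
      · obtain ⟨c2, c1, c0⟩ := coeff_shift (F i) (a i : ℤ)
        rw [c2, c1, c0]
        have hKK := hKi i
        refine ⟨habs _ _ (by omega), habs _ _ (by omega), ?_⟩
        have h5 := habs ((F i).coeff 0 + (a i : ℤ)) (K + B * x ^ 2) (by
          have h6 := (haA i).2
          have h7 := (hA i).1
          have h8 : x ^ (F i).natDegree ≤ x ^ 2 := Nat.pow_le_pow_right (by omega) (hd2 i)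
          have h9 : B * x ^ (F i).natDegree ≤ B * x ^ 2 := Nat.mul_le_mul_left _ h8
          omega)
        rw [hG]
        push_cast at h5 ⊢
        exact h5
    have hRR : ∀ f ∈ H, ∀ g ∈ H, f ≠ g → RR f g ≠ 0 ∧ |((RR f g : ℤ) : ℝ)| ≤ (x : ℝ) ^ 5 := by
      intro f hf g hg hfg
      refine ⟨?_, ?_⟩
      · rcases hmem f hf with rfl | ⟨i, rfl⟩
        · rcases hmem g hg with rfl | ⟨j, rfl⟩
          · exact absurd rfl hfg
          · exact RR_ne_symm (hR.2 j)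
        · rcases hmem g hg with rfl | ⟨j, rfl⟩
          · exact hR.2 i
          · apply hR.1 i j
            rintro rfl
            exact hfg rfl
      · obtain ⟨f2, f1, f0⟩ := hcf f hf
        obtain ⟨g2, g1, g0⟩ := hcf g hg
        exact (RR_le f g K G hKr hKG f2 f1 f0 g2 g1 g0).trans hGx
    have hSJ : ∀ f ∈ H, f.coeff 2 ≠ 0 → ¬ IsSquare (DD f) ∧ ∀ᶠ N in atTop, |SJ (DD f) z N| ≤ 1 / L ^ (U + 6) := by
      intro f hf h
      rcases hmem f hf with rfl | ⟨i, rfl⟩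
      · exact absurd (by simp [coeff_X]) h
      · rw [(coeff_shift (F i) (a i : ℤ)).1] at h
        exact hJ i h
    have hU6 : L ^ (U + 6) ≤ z := hzn (U + 6) (by omega)
    have hpU3 : L ^ (U + 6) = L ^ 3 * L ^ (U + 3) := by rw [← pow_add]; congr 1; ring
    have hL3 : (8000 : ℝ) ≤ L ^ 3 := by
      have : (20 : ℝ) ^ 3 ≤ L ^ 3 := pow_le_pow_left₀ (by norm_num) hL20 3
      linarith
    have h5z : 5 / (z : ℝ) ≤ 5 / L ^ (U + 6) := div_le_div_of_nonneg_left (by norm_num) (by positivity) hU6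
    have hη2 : 2 * (1 / L ^ (U + 6) + 5 / z) ≤ 1 / L ^ (U + 3) := by
      have g1 : 2 * (1 / L ^ (U + 6) + 5 / L ^ (U + 6)) = (12 / L ^ 3) * (1 / L ^ (U + 3)) := by
        rw [hpU3]
        field_simp
        ring
      have g2 : 12 / L ^ 3 ≤ 1 := by
        rw [div_le_one (by positivity)]
        linarith
      have g3 : 0 ≤ 1 / L ^ (U + 3) := by positivity
      nlinarith
    have hη1 : 1 / L ^ (U + 3) ≤ 1 := by
      rw [div_le_one (by positivity)]
      exact one_le_pow₀ hL1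
    have hlog5 : Real.log ((x : ℝ) ^ 5) = 5 * L := by
      rw [Real.log_pow, hL]
      norm_num
    have hη3 : 2 * (8 * (H.card : ℝ) ^ 2 / z + (H.card : ℝ) ^ 2 * (2 * Real.log ((x : ℝ) ^ 5)) * (4 * H.card / z)) ≤ 1 / L ^ (U + 3) := by
      rw [hlog5]
      have hc0 : (0 : ℝ) ≤ H.card := Nat.cast_nonneg _
      have g1 : (H.card : ℝ) ^ 2 ≤ (k + 1) ^ 2 := pow_le_pow_left₀ hc0 hcardr 2
      have g2 : (H.card : ℝ) ^ 3 ≤ (k + 1) ^ 3 := pow_le_pow_left₀ hc0 hcardr 3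
      have g3 : ((k : ℝ) + 1) ^ 2 ≤ (k + 1) ^ 3 := pow_le_pow_right₀ (by linarith) (by norm_num)
      have g4 : 2 * (8 * (H.card : ℝ) ^ 2 / z + (H.card : ℝ) ^ 2 * (2 * (5 * L)) * (4 * H.card / z)) =
          (16 * (H.card : ℝ) ^ 2 + 80 * (H.card : ℝ) ^ 3 * L) / z := by
        field_simp
        ring
      rw [g4]
      have g5 : 16 * (H.card : ℝ) ^ 2 + 80 * (H.card : ℝ) ^ 3 * L ≤ 96 * (k + 1) ^ 3 * L := by
        have g6 : (0 : ℝ) ≤ (H.card : ℝ) ^ 3 := by positivity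
        have g7 : (0 : ℝ) ≤ ((k : ℝ) + 1) ^ 3 := by positivity
        nlinarith
      have g8 : 96 * ((k : ℝ) + 1) ^ 3 ≤ L := by
        have g9 : (0 : ℝ) ≤ ((k : ℝ) + 1) ^ 3 := by positivity
        linarith
      calc (16 * (H.card : ℝ) ^ 2 + 80 * (H.card : ℝ) ^ 3 * L) / z ≤ (96 * (k + 1) ^ 3 * L) / z :=
            div_le_div_of_nonneg_right g5 hz0.le
        _ ≤ (96 * (k + 1) ^ 3 * L) / L ^ (U + 6) := div_le_div_of_nonneg_left (by positivity) (by positivity) hU6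
        _ ≤ (L * L) / L ^ (U + 6) := by
            apply div_le_div_of_nonneg_right _ (by positivity)
            exact mul_le_mul_of_nonneg_right g8 hL0.le
        _ = (1 / L) * (1 / L ^ (U + 3)) := by
            rw [hpU3]
            field_simp
        _ ≤ 1 * (1 / L ^ (U + 3)) := by
            apply mul_le_mul_of_nonneg_right _ (by positivity)
            rw [div_le_one hL0]
            exact hL1
        _ = _ := one_mul _
    have hδ1 : 1 / L ^ (U + 6) + 5 / z ≤ 1 / 2 := by linarith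
    have hz2 : 2 ≤ z := by
      have : (2 : ℝ) ≤ z := by linarith
      exact_mod_cast this
    have hzh : 4 * H.card ≤ z := by
      have g9 : (k : ℝ) + 1 ≤ ((k : ℝ) + 1) ^ 3 := le_self_pow₀ (by linarith) (by norm_num)
      have : (4 * H.card : ℝ) ≤ z := by linarith
      exact_mod_cast this
    obtain ⟨Λ, hΛ0, hΛ1, hΛT⟩ := tail_lim H z hz2 hzh hnice ((x : ℝ) ^ 5) (one_le_pow₀ (by linarith)) hRR
      (1 / L ^ (U + 6)) (by positivity) hδ1 hSJ (1 / L ^ (U + 3)) hη1 hη2 hη3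
    apply good_full P F U x z a (by omega) (by rw [← hL]; linarith) hgood Λ hΛ0 ?_ (by rw [← hH]; exact hΛT)
    refine hΛ1.trans ?_
    rw [← hL]
    have g1 : (2 : ℝ) ^ (H.card + 1) ≤ 2 ^ (k + 2) := pow_le_pow_right₀ (by norm_num) (by omega)
    calc (2 : ℝ) ^ (H.card + 1) * (1 / L ^ (U + 3)) ≤ L * (1 / L ^ (U + 3)) := by
          apply mul_le_mul_of_nonneg_right _ (by positivity)
          linarith
      _ = 1 / L ^ (U + 2) := by
          rw [pow_succ L (U + 2)]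
          field_simp

end Pool.Agent.N791.CT
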